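import Pool.Agent.helper84.WZ.SpecA

/-! # Project wz, module AAS: assembly of the result of part A -/

set_option autoImplicit false

namespace WZ

open Filter

theorem AAS_ex_zero {h R D n : ℕ} {s : W} (hs : s.length ≤ n) {q : ℕ}
    (hq : n * (2 * h + 2) ≤ q) : ex h R D s q = 0 := by
  have h1 : n ≤ q / (2 * h + 2) := by
    rw [Nat.le_div_iff_mul_le (by omega)]
    exact hq
  have h2 : s.toList[q / (2 * h + 2)]? = none := by
    rw [List.getElem?_eq_none_iff]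
    exact le_trans hs h1
  rw [ex, h2]

theorem AAS_mo_get {P : TW} {p : ℕ} {v v' : ℤ × ℤ} (h : P.toList[p]? = some (PL.m v v')) :
    (mo P).toList[p]? = some (Lt.k v) := by
  have : (mo P).toList = P.toList.map PL.fst := rfl
  rw [this, List.getElem?_map, h]
  rfl

theorem AAS_ke_get {P : TW} {p : ℕ} {v v' : ℤ × ℤ} (h : P.toList[p]? = some (PL.m v v')) :
    (ke P).toList[p]? = some (Lt.k v') := by
  have : (ke P).toList = P.toList.map PL.snd := rfl
  rw [this, List.getElem?_map, h]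
  rfl

theorem AAS_len_mo (P : TW) : (mo P).length = P.length := by
  show (P.toList.map PL.fst).length = P.toList.length
  rw [List.length_map]

theorem AAS_len_ke (P : TW) : (ke P).length = P.length := by
  show (P.toList.map PL.snd).length = P.toList.length
  rw [List.length_map]

theorem AAS_abs_t {n : ℕ} {v v' d : ℤ × ℤ} {t : ℤ} (h : v' = v + t • d) (hd : d ≠ 0)
    (h1 : |v.1| ≤ n ∧ |v.2| ≤ n) (h2 : |v'.1| ≤ n ∧ |v'.2| ≤ n) : |t| ≤ 2 * n := by
  have e1 : v'.1 = v.1 + t * d.1 := by rw [h]; simp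
  have e2 : v'.2 = v.2 + t * d.2 := by rw [h]; simp
  have key : ∀ x y z : ℤ, y = x + t * z → z ≠ 0 → |x| ≤ n → |y| ≤ n → |t| ≤ 2 * n := by
    intro x y z e hz hx hy
    have h3 : |t * z| ≤ 2 * n := by
      have : t * z = y - x := by rw [e]; ring
      rw [this]
      calc |y - x| ≤ |y| + |x| := abs_sub _ _
        _ ≤ 2 * n := by linarith
    rw [abs_mul] at h3
    have h4 : 1 ≤ |z| := Int.one_le_abs hz
    nlinarith [abs_nonneg t]
  by_cases hz : d.1 = 0
  · have hz2 : d.2 ≠ 0 := by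
      intro h3
      exact hd (Prod.ext hz h3)
    exact key _ _ _ e2 hz2 h1.2 h2.2
  · exact key _ _ _ e1 hz h1.1 h2.1

/-- Positions of the marks. -/
theorem AAS_split {P : TW} {p : ℕ} {v v' : ℤ × ℤ} (h : P.toList[p]? = some (PL.m v v')) :
    ∃ l r : TW, P = l * FreeMonoid.of (PL.m v v') * r ∧ l.length = p ∧ (mo l).length = p := by
  obtain ⟨hp, he⟩ := List.getElem?_eq_some_iff.1 h
  refine ⟨FreeMonoid.ofList (P.toList.take p), FreeMonoid.ofList (P.toList.drop (p + 1)), ?_, ?_,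
    ?_⟩
  · show P.toList = (P.toList.take p ++ [PL.m v v']) ++ P.toList.drop (p + 1)
    rw [← he, List.append_assoc, List.singleton_append, List.getElem_cons_drop,
      List.take_append_drop]
  · show (P.toList.take p).length = p
    rw [List.length_take]
    omega
  · rw [AAS_len_mo]
    show (P.toList.take p).length = p
    rw [List.length_take]
    omega

/-- The core: labels for one word and one derivation system. -/
theorem AAS_core (hWDA : WDA_stmt) (hWDB : WDB_stmt) (hLAB : LAB_stmt) (hMV : MV_stmt)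
    {h N B M H D K T S₀ R : ℕ} (hh : 3 ≤ h) (hN : 0 < N) (hNh : N < h) (hM : M = N * (2 * h + 2))
    (hDR : D * N < R) (hB : 1 ≤ B)
    (S : Sys (Fin 6)) (β : S.St) (B₀ : ℕ → ℕ) (B₁ : ℕ) (hB₁ : ∀ l, l < M → B₀ l ≤ B₁)
    (hGS : ∀ (σ : ℕ → Fin 6) (β : S.St) (r s : ℕ) (e : ℕ → ℕ), S.DX σ β r s e →
      ∃ (a : ℕ → ℕ) (Ps : Set (ℕ → ℕ)), (∀ q, a q ≤ B₀ (s - r)) ∧
        (∀ π ∈ Ps, (∀ q, π q ≤ B) ∧ (∃ r' s' : ℕ, ∀ q, π q ≠ 0 → q = r' ∨ q = s') ∧
          ∀ q, π q ≠ 0 → r ≤ q ∧ q ≤ s) ∧ NC Ps ∧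
        (∃ x ∈ AddSubmonoid.closure Ps, e = a + x) ∧
        ∀ x ∈ AddSubmonoid.closure Ps, S.DX σ β r s (a + x))
    (hACT : ∀ (e a : ℕ → ℕ) (Ps : Set (ℕ → ℕ)), (∀ q, a q ≤ B₁) →
      (∀ π ∈ Ps, (∀ q, π q ≤ B) ∧ ∀ q, M ≤ q → π q = 0) →
      (∃ x ∈ AddSubmonoid.closure Ps, e = a + x) →
      ∃ (Q : Finset (ℕ → ℕ)) (nn : (ℕ → ℕ) → ℕ) (a' : ℕ → ℕ), (Q : Set (ℕ → ℕ)) ⊆ Ps ∧
        (∀ π ∈ Q, T ≤ nn π) ∧ (∀ q, a' q ≤ S₀) ∧
        (∀ q, e q = a' q + ∑ π ∈ Q, nn π * π q) ∧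
        (∃ x ∈ AddSubmonoid.closure Ps, a' = a + x) ∧
        ∀ s : W, s.length ≤ N → Box N s → e = ex h R D s →
          FP h (fun p => ∃ v, s.toList[p]? = some (Lt.k v)) (Q : Set (ℕ → ℕ)))
    (hGEN : ∀ s : W, s.length ≤ N → Box N s → ∀ φ : ℕ → ℤ, (∀ q, |φ q| ≤ H) →
      |∑ q ∈ Finset.range (N * (2 * h + 2)), φ q * (ex h R D s q : ℤ)| ≤ M * H * S₀ →
      ∀ (p u : ℕ) (v : ℤ × ℤ), s.toList[p]? = some (Lt.k v) → u < 2 * h - 2 →
        φ (p * (2 * h + 2) + u) = - φ (p * (2 * h + 2) + (2 * h - 2 + u % 2)))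
    (hLA : ∀ Q : Finset (ℕ → ℕ), (∀ π ∈ Q, (∀ q, π q ≤ B) ∧ ∀ q, M ≤ q → π q = 0) →
      ∃ Φ : Finset (ℕ → ℤ), (∀ φ ∈ Φ, ∀ q, |φ q| ≤ H) ∧
      (∀ φ ∈ Φ, ∀ π ∈ Q, ∑ q ∈ Finset.range M, φ q * (π q : ℤ) = 0) ∧
      ∀ ψ : ℕ → ℚ, Ann M (Q : Set (ℕ → ℕ)) ψ →
        ∃ c : (ℕ → ℤ) → ℚ, ∀ q, q < M → ψ q = ∑ φ ∈ Φ, c φ * (φ q : ℚ))
    (Λ : Finset (ℤ × ℤ)) (hΛ : ∀ d : ℤ × ℤ, d ∈ Λ ↔
      d ≠ 0 ∧ |d.1| ≤ (B : ℤ) ^ 3 ∧ |d.2| ≤ (B : ℤ) ^ 3)
    (hLB : ∀ Q : Finset (ℕ → ℕ), (∀ π ∈ Q, (∀ q, π q ≤ B) ∧ ∀ q, M ≤ q → π q = 0) →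
      ∀ p < N, ∀ d ∈ Λ, (∀ ψ : ℕ → ℚ, Ann M (Q : Set (ℕ → ℕ)) ψ →
        ∑ q ∈ Finset.range M, ψ q * (dl h p d q : ℚ) = 0) →
      ∃ c : (ℕ → ℕ) → ℤ, (∀ π, |c π| ≤ K) ∧
        ∀ q, q < M → (D : ℤ) * dl h p d q = ∑ π ∈ Q, c π * (π q : ℤ))
    (hT : N * (2 * N) * K ≤ T)
    (s : W) (hs : s.length ≤ N) (hbox : Box N s) (hder : S.Der β (real h R D N s)) :
    ∃ lab : ℕ → ℤ × ℤ, (∀ p, lab p ∈ Λ) ∧ ∀ P : TW, mo P = s → Box N (ke P) →
      (∀ p v v', P.toList[p]? = some (PL.m v v') → ∃ t : ℤ, v' = v + t • lab p) →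
      S.Der β (real h R D N (ke P)) := by
  classical
  have hMpos : 0 < M := by
    rw [hM]
    positivity
  have he0 : ∀ q, M ≤ q → ex h R D s q = 0 := fun q hq => AAS_ex_zero hs (by rw [← hM]; exact hq)
  have hder' : S.Der β (wd (sg h) M (ex h R D s)) := by
    rw [hM]
    exact hder
  obtain ⟨s₀, hs₀, hDX⟩ := hWDB (Fin 6) S (sg h) β M (ex h R D s) hMpos he0 hder'
  obtain ⟨a, Ps, ha, hPs, hNC, hx, hall⟩ := hGS (sg h) β 0 s₀ _ hDX
  have ha1 : ∀ q, a q ≤ B₁ := fun q => (ha q).trans (hB₁ _ (by omega))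
  have hPs1 : ∀ π ∈ Ps, (∀ q, π q ≤ B) ∧ ∀ q, M ≤ q → π q = 0 := by
    intro π hπ
    refine ⟨(hPs π hπ).1, fun q hq => ?_⟩
    by_contra hne
    have := (hPs π hπ).2.2 q hne
    omega
  obtain ⟨Q, nn, a', hQ, hnn, ha', heq, hx', hFP⟩ := hACT _ a Ps ha1 hPs1 hx
  have hFP := hFP s hs hbox rfl
  set lng : ℕ → Prop := fun p => ∃ v, s.toList[p]? = some (Lt.k v) with hlng
  have hlngN : ∀ p, lng p → p < N := by
    rintro p ⟨v, hv⟩
    obtain ⟨hp, -⟩ := List.getElem?_eq_some_iff.1 hv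
    exact lt_of_lt_of_le hp hs
  have hSm : Sm B M (Q : Set (ℕ → ℕ)) := fun π hπ =>
    ⟨(hPs π (hQ hπ)).1, (hPs1 π (hQ hπ)).2, (hPs π (hQ hπ)).2.1⟩
  have hNCQ : NC (Q : Set (ℕ → ℕ)) := fun π hπ π' hπ' => hNC π (hQ hπ) π' (hQ hπ')
  have hQ1 : ∀ π ∈ Q, (∀ q, π q ≤ B) ∧ ∀ q, M ≤ q → π q = 0 := fun π hπ =>
    hPs1 π (hQ (Finset.mem_coe.2 hπ))
  have hlabex : ∀ p, ∃ d : ℤ × ℤ, d ∈ Λ ∧ (lng p → Rel h M lng (Q : Set (ℕ → ℕ)) p d) := by
    intro p
    by_cases hp : lng p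
    · obtain ⟨d, hd0, hd1, hd2, hrel⟩ := hLAB h N B M lng (Q : Set (ℕ → ℕ)) hh hNh hM hlngN hSm
        hNCQ hFP p hp
      exact ⟨d, (hΛ d).2 ⟨hd0, hd1, hd2⟩, fun _ => hrel⟩
    · refine ⟨(1, 0), (hΛ _).2 ⟨?_, ?_, ?_⟩, fun h => absurd h hp⟩
      · intro h
        simpa using congrArg Prod.fst h
      · show |(1 : ℤ)| ≤ (B : ℤ) ^ 3
        rw [abs_one]
        have : (1 : ℤ) ≤ B := by exact_mod_cast hB
        exact one_le_pow₀ this
      · show |(0 : ℤ)| ≤ (B : ℤ) ^ 3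
        rw [abs_zero]
        positivity
  choose lab hlabΛ hlabrel using hlabex
  -- the block condition
  obtain ⟨Φ, hΦ1, hΦ2, hΦ3⟩ := hLA Q hQ1
  have hΦBC : ∀ φ ∈ Φ, ∀ (p u : ℕ), lng p → u < 2 * h - 2 →
        φ (p * (2 * h + 2) + u) = - φ (p * (2 * h + 2) + (2 * h - 2 + u % 2)) := by
    rintro φ hφ p u ⟨v, hv⟩ hu
    refine hGEN s hs hbox φ (hΦ1 φ hφ) ?_ p u v hv hu
    rw [← hM]
    have e1 : ∑ q ∈ Finset.range M, φ q * (ex h R D s q : ℤ) =
        ∑ q ∈ Finset.range M, φ q * (a' q : ℤ) := by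
      have e2 : ∀ q ∈ Finset.range M, φ q * (ex h R D s q : ℤ) =
          φ q * (a' q : ℤ) + ∑ π ∈ Q, (nn π : ℤ) * (φ q * (π q : ℤ)) := by
        intro q _
        rw [heq q]
        push_cast
        rw [mul_add, Finset.mul_sum]
        congr 1
        refine Finset.sum_congr rfl fun π _ => ?_
        ring
      rw [Finset.sum_congr rfl e2, Finset.sum_add_distrib, Finset.sum_comm]
      have e3 : ∑ π ∈ Q, ∑ q ∈ Finset.range M, (nn π : ℤ) * (φ q * (π q : ℤ)) = 0 := by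
        refine Finset.sum_eq_zero fun π hπ => ?_
        rw [← Finset.mul_sum, hΦ2 φ hφ π hπ, mul_zero]
      rw [e3, add_zero]
    rw [e1]
    calc |∑ q ∈ Finset.range M, φ q * (a' q : ℤ)| ≤ ∑ q ∈ Finset.range M, |φ q * (a' q : ℤ)| :=
          Finset.abs_sum_le_sum_abs _ _
      _ ≤ ∑ q ∈ Finset.range M, ((H : ℤ) * S₀) := by
          refine Finset.sum_le_sum fun q _ => ?_
          rw [abs_mul]
          have h1 := hΦ1 φ hφ q
          have h2 : |(a' q : ℤ)| ≤ S₀ := by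
            rw [abs_of_nonneg (by positivity)]
            exact_mod_cast ha' q
          exact mul_le_mul h1 h2 (abs_nonneg _) (by positivity)
      _ = M * H * S₀ := by
          rw [Finset.sum_const, Finset.card_range, nsmul_eq_mul]
          ring
  have hW : 0 < 2 * h + 2 := by omega
  have hidx : ∀ p u, p < N → u < 2 * h + 2 → p * (2 * h + 2) + u < M := by
    intro p u hp hu
    rw [hM]
    have : (p + 1) * (2 * h + 2) ≤ N * (2 * h + 2) := Nat.mul_le_mul_right _ hp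
    nlinarith
  have hBC : ∀ ψ : ℕ → ℚ, Ann M (Q : Set (ℕ → ℕ)) ψ → BC h lng ψ := by
    intro ψ hψ p u hp hu
    obtain ⟨c, hc⟩ := hΦ3 ψ hψ
    have hpN := hlngN p hp
    rw [hc _ (hidx p u hpN (by omega)), hc _ (hidx p (2 * h - 2 + u % 2) hpN (by omega)),
      ← Finset.sum_neg_distrib]
    refine Finset.sum_congr rfl fun φ hφ => ?_
    rw [hΦBC φ hφ p u hp hu]
    push_cast
    ring
  have hdl : ∀ p, lng p → ∀ ψ : ℕ → ℚ, Ann M (Q : Set (ℕ → ℕ)) ψ →
      ∑ q ∈ Finset.range M, ψ q * (dl h p (lab p) q : ℚ) = 0 := by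
    intro p hp ψ hψ
    have hrel := hlabrel p hp ψ hψ (hBC ψ hψ)
    have hpN := hlngN p hp
    have i1 := hidx p (2 * h - 2) hpN (by omega)
    have i2 := hidx p (2 * h - 1) hpN (by omega)
    have e1 : ∀ q ∈ Finset.range M, ψ q * (dl h p (lab p) q : ℚ) =
        (if q = p * (2 * h + 2) + (2 * h - 2) then - (ψ q * ((lab p).1 : ℚ)) else 0) +
        (if q = p * (2 * h + 2) + (2 * h - 1) then - (ψ q * ((lab p).2 : ℚ)) else 0) := by
      intro q _
      by_cases h1 : q = p * (2 * h + 2) + (2 * h - 2)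
      · have h2 : q ≠ p * (2 * h + 2) + (2 * h - 1) := by omega
        rw [dl, if_pos h1, if_pos h1, if_neg h2]
        push_cast
        ring
      · by_cases h2 : q = p * (2 * h + 2) + (2 * h - 1)
        · rw [dl, if_neg h1, if_pos h2, if_neg h1, if_pos h2]
          push_cast
          ring
        · rw [dl, if_neg h1, if_neg h2, if_neg h1, if_neg h2]
          simp
    rw [Finset.sum_congr rfl e1, Finset.sum_add_distrib, Finset.sum_ite_eq', Finset.sum_ite_eq',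
      if_pos (Finset.mem_range.2 i1), if_pos (Finset.mem_range.2 i2)]
    linarith
  have hcex : ∀ p, ∃ c : (ℕ → ℕ) → ℤ, lng p → (∀ π, |c π| ≤ K) ∧
        ∀ q, q < M → (D : ℤ) * dl h p (lab p) q = ∑ π ∈ Q, c π * (π q : ℤ) := by
    intro p
    by_cases hp : lng p
    · obtain ⟨c, hc⟩ := hLB Q hQ1 p (hlngN p hp) (lab p) (hlabΛ p) (hdl p hp)
      exact ⟨c, fun _ => hc⟩
    · exact ⟨fun _ => 0, fun h => absurd h hp⟩
  choose c hc using hcex
  refine ⟨lab, hlabΛ, fun P hP hbP hlegal => ?_⟩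
  -- the multipliers
  have htex : ∀ p, ∃ t : ℤ, (∀ v v', P.toList[p]? = some (PL.m v v') → v' = v + t • lab p) ∧
      ((∀ v v', P.toList[p]? ≠ some (PL.m v v')) → t = 0) ∧ |t| ≤ 2 * N ∧
      (t ≠ 0 → lng p) := by
    intro p
    by_cases hp : ∃ v v', P.toList[p]? = some (PL.m v v')
    · obtain ⟨v, v', hv⟩ := hp
      obtain ⟨t, ht⟩ := hlegal p v v' hv
      have hlp : lng p := ⟨v, by rw [← hP]; exact AAS_mo_get hv⟩
      refine ⟨t, ?_, fun h => absurd hv (h v v'), ?_, fun _ => hlp⟩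
      · intro w w' hw
        rw [hv] at hw
        injection hw with hw
        injection hw with h1 h2
        rw [← h1, ← h2]
        exact ht
      · have hd0 : lab p ≠ 0 := ((hΛ _).1 (hlabΛ p)).1
        refine AAS_abs_t ht hd0 (hbox v ?_) (hbP v' ?_)
        · rw [← hP]
          exact List.mem_of_getElem? (AAS_mo_get hv)
        · exact List.mem_of_getElem? (AAS_ke_get hv)
    · push Not at hp
      refine ⟨0, fun v v' hv => absurd hv (hp v v'), fun _ => rfl, ?_, fun h => absurd rfl h⟩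
      rw [abs_zero]
      positivity
  choose t ht1 ht2 ht3 ht4 using htex
  have hPlen : P.length ≤ N := by
    rw [← AAS_len_mo, hP]
    exact hs
  have hmv := hMV h R D N P hh hPlen (by rw [hP]; exact hbox) hbP hDR t lab
    (fun p v v' hv => ht1 p v v' hv) (fun p hp => ht2 p hp)
  rw [hP] at hmv
  -- the new multiplicities
  let m : (ℕ → ℕ) → ℤ := fun π => nn π + ∑ p ∈ Finset.range N, t p * c p π
  have hm0 : ∀ π ∈ Q, 0 ≤ m π := by
    intro π hπ
    have h1 : |∑ p ∈ Finset.range N, t p * c p π| ≤ N * (2 * N) * K := by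
      calc |∑ p ∈ Finset.range N, t p * c p π| ≤ ∑ p ∈ Finset.range N, |t p * c p π| :=
            Finset.abs_sum_le_sum_abs _ _
        _ ≤ ∑ p ∈ Finset.range N, ((2 * N : ℤ) * K) := by
            refine Finset.sum_le_sum fun p _ => ?_
            by_cases h0 : t p = 0
            · rw [h0, zero_mul, abs_zero]
              positivity
            · rw [abs_mul]
              exact mul_le_mul (ht3 p) ((hc p (ht4 p h0)).1 π) (abs_nonneg _) (by positivity)
        _ = N * (2 * N) * K := by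
            rw [Finset.sum_const, Finset.card_range, nsmul_eq_mul]
            ring
    have h2 : (T : ℤ) ≤ nn π := by exact_mod_cast hnn π hπ
    have h3 : ((N * (2 * N) * K : ℕ) : ℤ) ≤ T := by exact_mod_cast hT
    push_cast at h3
    have h4 := neg_abs_le (∑ p ∈ Finset.range N, t p * c p π)
    show 0 ≤ (nn π : ℤ) + ∑ p ∈ Finset.range N, t p * c p π
    linarith
  have hfun : ex h R D (ke P) = a' + ∑ π ∈ Q, (m π).toNat • π := by
    funext q
    rw [Pi.add_apply, Finset.sum_apply]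
    by_cases hq : q < M
    · have e1 : (ex h R D (ke P) q : ℤ) = a' q + ∑ π ∈ Q, m π * (π q : ℤ) := by
        rw [hmv q, heq q]
        push_cast
        have e2 : ∀ p ∈ Finset.range N, t p * (D * dl h p (lab p) q) =
            ∑ π ∈ Q, (t p * c p π) * (π q : ℤ) := by
          intro p _
          by_cases h0 : t p = 0
          · rw [h0]
            simp
          · rw [(hc p (ht4 p h0)).2 q hq, Finset.mul_sum]
            refine Finset.sum_congr rfl fun π _ => ?_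
            ring
        rw [Finset.sum_congr rfl e2, Finset.sum_comm, add_assoc, ← Finset.sum_add_distrib]
        congr 1
        refine Finset.sum_congr rfl fun π _ => ?_
        rw [← Finset.sum_mul]
        show _ = ((nn π : ℤ) + ∑ p ∈ Finset.range N, t p * c p π) * (π q : ℤ)
        ring
      have e3 : ((a' q + ∑ π ∈ Q, ((m π).toNat • π) q : ℕ) : ℤ) =
          a' q + ∑ π ∈ Q, m π * (π q : ℤ) := by
        push_cast
        congr 1
        refine Finset.sum_congr rfl fun π hπ => ?_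
        rw [Pi.smul_apply, smul_eq_mul]
        push_cast
        rw [Int.toNat_of_nonneg (hm0 π hπ)]
      have := e1.trans e3.symm
      exact_mod_cast this
    · push Not at hq
      have e1 : ex h R D (ke P) q = 0 := by
        refine AAS_ex_zero (n := N) ?_ (by rw [← hM]; exact hq)
        rw [AAS_len_ke]
        exact hPlen
      have e2 : a' q = 0 := by
        have := heq q
        rw [he0 q hq] at this
        omega
      rw [e1, e2, zero_add]
      symm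
      refine Finset.sum_eq_zero fun π hπ => ?_
      rw [Pi.smul_apply, (hQ1 π hπ).2 q hq, smul_zero]
  obtain ⟨x, hxc, hx'⟩ := hx'
  have hmem : x + ∑ π ∈ Q, (m π).toNat • π ∈ AddSubmonoid.closure Ps := by
    refine add_mem hxc (sum_mem fun π hπ => ?_)
    exact nsmul_mem (AddSubmonoid.subset_closure (hQ (Finset.mem_coe.2 hπ))) _
  have hfin := hall _ hmem
  rw [← add_assoc, ← hx', ← hfun] at hfin
  have := (hWDA (Fin 6) S (sg h) β 0 s₀ _ hfin).2.2 M hs₀
  rw [real, ← hM]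
  exact this

theorem AAS (hCF : CF_stmt) (hWDA : WDA_stmt) (hWDB : WDB_stmt) (hGS : GS_stmt)
    (hACT : ACT_stmt) (hFLX : FLX_stmt) (hLAB : LAB_stmt) (hGEN : GEN_stmt) (hLA : LA_stmt)
    (hLB : LB_stmt) (hRE : RE_stmt) (hMV : MV_stmt) (hPSI : PSI_stmt) : A_stmt := by
  classical
  intro k L hL hWP
  have h1 : ∀ i, ∃ (S : Sys (Fin 6)) (β : S.St), ∀ w : List (Fin 6), w ∈ L i ↔ S.Der β w :=
    fun i => hCF (Fin 6) (L i) (hL i)
  choose S β hS using h1
  have h2 := fun i => hGS (Fin 6) (S i)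
  choose Bi B₀ hBi using h2
  set B : ℕ := Finset.univ.sup Bi + 1 with hBdef
  have hB1 : 1 ≤ B := by omega
  have hBle : ∀ i, Bi i ≤ B := fun i =>
    (Finset.le_sup (f := Bi) (Finset.mem_univ i)).trans (Nat.le_succ _)
  set Λ : Finset (ℤ × ℤ) := (Finset.Icc (-((B : ℤ) ^ 3)) ((B : ℤ) ^ 3) ×ˢ
    Finset.Icc (-((B : ℤ) ^ 3)) ((B : ℤ) ^ 3)).filter (fun d => d ≠ 0) with hΛdef
  have hΛ : ∀ d : ℤ × ℤ, d ∈ Λ ↔ d ≠ 0 ∧ |d.1| ≤ (B : ℤ) ^ 3 ∧ |d.2| ≤ (B : ℤ) ^ 3 := by
    intro d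
    rw [hΛdef, Finset.mem_filter, Finset.mem_product, Finset.mem_Icc, Finset.mem_Icc, abs_le,
      abs_le]
    tauto
  refine ⟨Λ, fun h => ((hΛ 0).1 h).1 rfl, fun n => ?_⟩
  set N : ℕ := n + 1 with hN
  set h : ℕ := N + 3 with hh
  set M : ℕ := N * (2 * h + 2) with hM
  obtain ⟨H, hH⟩ := hLA M B
  obtain ⟨D, K, hD, hDK⟩ := hLB M B
    ((Finset.range N ×ˢ Λ).image (fun x => dl h x.1 x.2))
  set T : ℕ := N * (2 * N) * K with hT
  let B₁ : Fin k → ℕ := fun i => (Finset.range M).sup (B₀ i)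
  have h3 := fun i => hACT B (B₁ i) M T
  choose S₀i Ki hAi using h3
  set S₀ : ℕ := Finset.univ.sup S₀i with hS₀
  set K₀ : ℕ := Finset.univ.sup Ki with hK₀
  obtain ⟨R₁, hR₁⟩ := hFLX h N B S₀ K₀ D (by omega)
  obtain ⟨R₂, hR₂⟩ := hGEN h N H (M * H * S₀) D (by omega)
  set R : ℕ := R₁ + R₂ + D * N + 1 with hR
  have hDR : D * N < R := by omega
  refine ⟨D, hD, real h R D N, fun s hs hb => ?_, fun i => ?_⟩
  · refine hRE h R D N s (by omega) (by omega) ?_ hDR
    intro v hv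
    have := hb v hv
    rw [hN]
    push_cast
    constructor <;> linarith [this.1, this.2]
  · -- labels for all words
    have hcore : ∀ s : W, ∃ lab : ℕ → ℤ × ℤ, (∀ p, lab p ∈ Λ) ∧
        (s.length ≤ N → Box N s → val 1 s = 1 → ∀ P : TW, mo P = s → Box N (ke P) →
          (∀ p v v', P.toList[p]? = some (PL.m v v') → ∃ t : ℤ, v' = v + t • lab p) →
          (S i).Der (β i) (real h R D N (ke P))) := by
      intro s
      by_cases hs : s.length ≤ N ∧ Box N s ∧ val 1 s = 1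
      · obtain ⟨hs1, hs2, hs3⟩ := hs
        have hder : (S i).Der (β i) (real h R D N s) := by
          refine (hS i _).1 (hWP _ ?_ i)
          rw [hRE h R D N s (by omega) hs1 hs2 hDR]
          exact hPSI.1 D s hs3
        obtain ⟨lab, hlab, hP⟩ := AAS_core hWDA hWDB hLAB hMV (h := h) (N := N) (B := B) (M := M)
          (H := H) (D := D) (K := K) (T := T) (S₀ := S₀) (R := R) (by omega) (by omega) (by omega)
          hM hDR hB1 (S i) (β i) (B₀ i) (B₁ i)
          (fun l hl => Finset.le_sup (f := B₀ i) (Finset.mem_range.2 hl))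
          (fun σ β' r s' e hDX => by
            obtain ⟨a, Ps, ha, hPs, hrest⟩ := hBi i σ β' r s' e hDX
            exact ⟨a, Ps, ha, fun π hπ => ⟨fun q => ((hPs π hπ).1 q).trans (hBle i),
              (hPs π hπ).2⟩, hrest⟩)
          (fun e a Ps ha hPs hx => by
            obtain ⟨Q, nn, a', hQ, hcard, hnn, ha', he, hx'⟩ := hAi i e a Ps ha hPs hx
            have hle1 : S₀i i ≤ S₀ := Finset.le_sup (f := S₀i) (Finset.mem_univ i)
            have hle2 : Ki i ≤ K₀ := Finset.le_sup (f := Ki) (Finset.mem_univ i)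
            refine ⟨Q, nn, a', hQ, hnn, fun q => (ha' q).trans hle1, he, hx', ?_⟩
            intro s' hs' hb' he'
            refine hR₁ R (by omega) s' hs' hb' Q nn a' (hcard.trans hle2)
              (fun π hπ => (hPs π (hQ (Finset.mem_coe.2 hπ))).1)
              (fun q => (ha' q).trans hle1) ?_
            rw [← he']
            exact he)
          (fun s' hs' hb' φ hφ hsum => by
            refine hR₂ R (by omega) s' hs' hb' φ hφ ?_
            push_cast
            exact hsum)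
          hH Λ hΛ
          (fun Q hQ p hp d hd hψ => by
            refine hDK Q hQ (dl h p d) ?_ hψ
            exact Finset.mem_image.2 ⟨(p, d), Finset.mem_product.2 ⟨Finset.mem_range.2 hp, hd⟩, rfl⟩)
          le_rfl s hs1 hs2 hder
        exact ⟨lab, hlab, fun _ _ _ => hP⟩
      · refine ⟨fun _ => (1, 0), fun _ => (hΛ _).2 ⟨?_, ?_, ?_⟩, fun a b c => absurd ⟨a, b, c⟩ hs⟩
        · intro h
          simpa using congrArg Prod.fst h
        · show |(1 : ℤ)| ≤ (B : ℤ) ^ 3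
          rw [abs_one]
          have : (1 : ℤ) ≤ B := by exact_mod_cast hB1
          exact one_le_pow₀ this
        · show |(0 : ℤ)| ≤ (B : ℤ) ^ 3
          rw [abs_zero]
          positivity
    choose lab hlab1 hlab2 using hcore
    refine ⟨fun l v r => lab (l * FreeMonoid.of (Lt.k v) * r) l.length, fun l v r => hlab1 _ _, ?_⟩
    intro P hP1 hP2 hP3 hP4 hP5
    rw [hS i]
    have hbox : ∀ s : W, Box n s → Box N s := by
      intro s hb v hv
      have := hb v hv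
      rw [hN]
      push_cast
      constructor <;> linarith [this.1, this.2]
    refine hlab2 (mo P) (by rw [AAS_len_mo]; omega) (hbox _ hP2) hP4 P rfl (hbox _ hP3) ?_
    intro p v v' hpv
    obtain ⟨l, r, hlr, hl1, hl2⟩ := AAS_split hpv
    obtain ⟨t, ht⟩ := hP5 l v v' r hlr
    refine ⟨t, ?_⟩
    rw [ht]
    congr 2
    have e : mo l * FreeMonoid.of (Lt.k v) * mo r = mo P := by
      rw [hlr, map_mul, map_mul]
      rfl
    show lab (mo l * FreeMonoid.of (Lt.k v) * mo r) (mo l).length = lab (mo P) p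
    rw [e, hl2]

end WZ
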