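import Pool.Agent.helper84.WZ.SpecB

/-! # Project wz, module FIN: the end of the proof -/

set_option autoImplicit false

namespace WZ

open Filter

theorem FIN_marks (P : TW) :
    {x : TW × (ℤ × ℤ) × (ℤ × ℤ) × TW |
      P = x.1 * FreeMonoid.of (PL.m x.2.1 x.2.2.1) * x.2.2.2}.Finite := by
  refine Set.Finite.of_finite_image (f := fun x => x.1.length)
    ((Set.finite_Iic P.length).subset ?_) ?_
  · rintro _ ⟨⟨l, v, v', r⟩, h, rfl⟩
    have h' : P = l * FreeMonoid.of (PL.m v v') * r := h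
    show l.length ≤ P.length
    rw [h', FreeMonoid.length_mul, FreeMonoid.length_mul]
    omega
  · rintro ⟨l, v, v', r⟩ h ⟨l2, w, w', r2⟩ h2 hl
    have h' : P = l * FreeMonoid.of (PL.m v v') * r := h
    have h2' : P = l2 * FreeMonoid.of (PL.m w w') * r2 := h2
    have hl' : l.toList.length = l2.toList.length := hl
    have e : l.toList ++ (PL.m v v' :: r.toList) = l2.toList ++ (PL.m w w' :: r2.toList) := by
      have := congrArg FreeMonoid.toList (h'.symm.trans h2')
      simpa [FreeMonoid.toList_mul, FreeMonoid.toList_of] using this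
    obtain ⟨e1, e2⟩ := List.append_inj e hl'
    rw [List.cons.injEq] at e2
    obtain ⟨e3, e4⟩ := e2
    injection e3 with e5 e6
    have e7 : l = l2 := e1
    have e8 : r = r2 := e4
    subst e5 e6 e7 e8
    rfl

theorem FIN_box (s : W) : ∀ᶠ m : ℕ in atTop, Box m s := by
  have key : ∀ l : List Lt, ∀ᶠ m : ℕ in atTop, ∀ v : ℤ × ℤ, Lt.k v ∈ l → |v.1| ≤ m ∧ |v.2| ≤ m := by
    intro l
    induction l with
    | nil => simp
    | cons a l ih =>
      have h1 : ∀ᶠ m : ℕ in atTop, ∀ v : ℤ × ℤ, Lt.k v = a → |v.1| ≤ m ∧ |v.2| ≤ m := by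
        cases a with
        | c s => simp
        | k w =>
          filter_upwards [eventually_ge_atTop (w.1.natAbs + w.2.natAbs)] with m hm v hv
          injection hv with hv
          subst hv
          rw [Int.abs_eq_natAbs, Int.abs_eq_natAbs]
          omega
      filter_upwards [ih, h1] with m h2 h3 v hv
      rcases List.mem_cons.1 hv with hv | hv
      · exact h3 v hv
      · exact h2 v hv
  exact key s.toList

theorem FIN (hA : A_stmt) (hR : R_stmt) (hP : PSI_stmt) : FIN_stmt := by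
  intro n L hL hw
  obtain ⟨Λ, h0, hA⟩ := hA n L hL (fun w hw1 => (hw w).1 hw1)
  choose D hD rl hrl hF using hA
  choose F hFΛ hFL using hF
  obtain ⟨U, hU⟩ : ∃ U : Ultrafilter ℕ, (U : Filter ℕ) ≤ atTop :=
    ⟨Ultrafilter.of atTop, Ultrafilter.of_le _⟩
  have hlim : ∀ i l v r, ∃ d ∈ Λ, ∀ᶠ m in (U : Filter ℕ), F m i l v r = d := by
    intro i l v r
    have h1 : ∀ᶠ m in (U : Filter ℕ), ∃ d ∈ Λ, F m i l v r = d :=
      Eventually.of_forall fun m => ⟨_, hFΛ m i l v r, rfl⟩
    have h2 := (Ultrafilter.eventually_exists_mem_iff (f := U) (is := (Λ : Set (ℤ × ℤ)))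
      (Finset.finite_toSet Λ) (P := fun d m => F m i l v r = d)).1 (by simpa using h1)
    simpa using h2
  choose G hGΛ hG using hlim
  obtain ⟨y, hy, hP'⟩ := hR Λ h0 n G hGΛ
  choose P hke hmo hleg using hP'
  have hev : ∀ᶠ m in (U : Filter ℕ), ∀ i, rl m (ke (P i)) ∈ L i := by
    rw [eventually_all]
    intro i
    have h1 : ∀ᶠ m in (U : Filter ℕ), (P i).length ≤ m := hU (eventually_ge_atTop _)
    have h2 : ∀ᶠ m in (U : Filter ℕ), Box m (mo (P i)) := hU (FIN_box _)
    have h3 : ∀ᶠ m in (U : Filter ℕ), Box m (ke (P i)) := hU (FIN_box _)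
    have h4 : ∀ᶠ m in (U : Filter ℕ), ∀ x ∈ {x : TW × (ℤ × ℤ) × (ℤ × ℤ) × TW |
        P i = x.1 * FreeMonoid.of (PL.m x.2.1 x.2.2.1) * x.2.2.2},
        F m i (mo x.1) x.2.1 (mo x.2.2.2) = G i (mo x.1) x.2.1 (mo x.2.2.2) := by
      rw [Set.Finite.eventually_all (FIN_marks (P i))]
      intro x _
      exact hG i _ _ _
    filter_upwards [h1, h2, h3, h4] with m h1 h2 h3 h4
    refine hFL m i (P i) h1 h2 h3 (hmo i) ?_
    intro l v v' r h
    obtain ⟨t, ht⟩ := hleg i l v v' r h
    refine ⟨t, ?_⟩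
    have := h4 (l, v, v', r) h
    simp only at this
    rw [this]
    exact ht
  have h5 : ∀ᶠ m in (U : Filter ℕ), y.length ≤ m := hU (eventually_ge_atTop _)
  have h6 : ∀ᶠ m in (U : Filter ℕ), Box m y := hU (FIN_box _)
  obtain ⟨m, h7, h8, h9⟩ := (hev.and (h5.and h6)).exists
  have h10 : DZ.ev (rl m y) = 1 := by
    rw [hw]
    intro i
    have := h7 i
    rwa [hke i] at this
  rw [hrl m y h8 h9] at h10
  exact hy (hP.2 (D m) y (hD m) h10)

end WZ
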