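import Pool.Agent.helper84.WZ.SpecA

/-! # Project wz, module GS -/

set_option autoImplicit false

namespace WZ

open Set

theorem GSx_unif {M : Type} [AddCommMonoid M] (ν : M → ℕ) {A : Set M} (h : IsSemilinearSet A) :
    ∃ B : ℕ, ∀ x ∈ A, ∃ (a : M) (t : Set M), ν a ≤ B ∧ (∀ y ∈ t, ν y ≤ B) ∧
      (∃ y ∈ AddSubmonoid.closure t, x = a + y) ∧
      ∀ y ∈ AddSubmonoid.closure t, a + y ∈ A := by
  classical
  obtain ⟨S, hS, hlin, rfl⟩ := h
  have h1 : ∀ L ∈ S, ∃ (a : M) (t : Set M) (B : ℕ), ν a ≤ B ∧ (∀ y ∈ t, ν y ≤ B) ∧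
      L = {x | ∃ y ∈ AddSubmonoid.closure t, x = a + y} := by
    intro L hL
    obtain ⟨a, t, ht, hL'⟩ := hlin L hL
    obtain ⟨B, hB⟩ := (ht.image ν).bddAbove
    refine ⟨a, t, max (ν a) B, le_max_left _ _, fun y hy => le_max_of_le_right
      (hB (mem_image_of_mem ν hy)), ?_⟩
    rw [hL']
    ext x
    constructor
    · rintro ⟨y, hy, rfl⟩
      exact ⟨y, hy, rfl⟩
    · rintro ⟨y, hy, rfl⟩
      exact ⟨y, hy, rfl⟩
  choose! a t B h2 h3 h4 using h1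
  obtain ⟨B', hB'⟩ := (hS.image B).bddAbove
  refine ⟨B', ?_⟩
  rintro x ⟨L, hL, hx⟩
  have hBL : B L ≤ B' := hB' (mem_image_of_mem B hL)
  refine ⟨a L, t L, (h2 L hL).trans hBL, fun y hy => (h3 L hL y hy).trans hBL, ?_, ?_⟩
  · have : x ∈ {x | ∃ y ∈ AddSubmonoid.closure (t L), x = a L + y} := by
      rw [← h4 L hL]
      exact hx
    exact this
  · intro y hy
    have h5 : a L + y ∈ {x | ∃ y ∈ AddSubmonoid.closure (t L), x = a L + y} := ⟨y, hy, rfl⟩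
    refine ⟨L, hL, ?_⟩
    rw [← h4 L hL] at h5
    exact h5

theorem GSx_unif2 {M : Type} [AddCommMonoid M] (ν : M → ℕ) {ι : Type} [Finite ι] (A : ι → Set M)
    (h : ∀ i, IsSemilinearSet (A i)) :
    ∃ B : ℕ, ∀ i, ∀ x ∈ A i, ∃ (a : M) (t : Set M), ν a ≤ B ∧ (∀ y ∈ t, ν y ≤ B) ∧
      (∃ y ∈ AddSubmonoid.closure t, x = a + y) ∧
      ∀ y ∈ AddSubmonoid.closure t, a + y ∈ A i := by
  choose B hB using fun i => GSx_unif ν (h i)
  obtain ⟨B', hB'⟩ := (Set.finite_range B).bddAbove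
  refine ⟨B', fun i x hx => ?_⟩
  obtain ⟨a, t, h1, h2, h3, h4⟩ := hB i x hx
  have : B i ≤ B' := hB' (mem_range_self i)
  exact ⟨a, t, h1.trans this, fun y hy => (h2 y hy).trans this, h3, h4⟩

/-- The embedding of `ℕ × ℕ` at the runs `r`, `s`. -/
def GSx_phi (r s : ℕ) : ℕ × ℕ →+ (ℕ → ℕ) where
  toFun x := Pi.single r x.1 + Pi.single s x.2
  map_zero' := by simp
  map_add' x y := by
    simp only [Prod.fst_add, Prod.snd_add, Pi.single_add]
    abel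

theorem GSx_phi_le {r s : ℕ} (hrs : r ≠ s) {B : ℕ} {x : ℕ × ℕ} (hx : max x.1 x.2 ≤ B) (q : ℕ) :
    GSx_phi r s x q ≤ B := by
  show (Pi.single r x.1 + Pi.single s x.2 : ℕ → ℕ) q ≤ B
  rw [Pi.add_apply]
  have h1 := le_of_max_le_left hx
  have h2 := le_of_max_le_right hx
  by_cases hr : q = r
  · subst hr
    rw [Pi.single_eq_same, Pi.single_eq_of_ne hrs]
    omega
  · rw [Pi.single_eq_of_ne hr]
    by_cases hs : q = s
    · subst hs
      rw [Pi.single_eq_same]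
      omega
    · rw [Pi.single_eq_of_ne hs]
      omega

theorem GSx_phi_supp {r s : ℕ} {x : ℕ × ℕ} {q : ℕ} (h : GSx_phi r s x q ≠ 0) : q = r ∨ q = s := by
  by_contra hc
  push Not at hc
  apply h
  show (Pi.single r x.1 + Pi.single s x.2 : ℕ → ℕ) q = 0
  rw [Pi.add_apply, Pi.single_eq_of_ne hc.1, Pi.single_eq_of_ne hc.2, add_zero]

theorem GSx_NC {r q s : ℕ} {P₁ P₂ P₃ : Set (ℕ → ℕ)} (h1 : NC P₁) (h2 : NC P₂)
    (s1 : ∀ π ∈ P₁, ∀ q', π q' ≠ 0 → r ≤ q' ∧ q' ≤ q) (s2 : ∀ π ∈ P₂, ∀ q', π q' ≠ 0 → q ≤ q' ∧ q' ≤ s)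
    (hrq : r ≤ q) (hqs : q ≤ s)
    (s3 : ∀ π ∈ P₃, ∀ q', π q' ≠ 0 → q' = r ∨ q' = s) : NC (P₁ ∪ P₂ ∪ P₃) := by
  rintro π hπ π' hπ' a a' b b' hab hab' hbb hπa hπb hπa' hπb'
  rcases hπ with (hπ | hπ) | hπ <;> rcases hπ' with (hπ' | hπ') | hπ'
  · exact h1 π hπ π' hπ' a a' b b' hab hab' hbb hπa hπb hπa' hπb'
  · have := s1 π hπ _ hπb
    have := s2 π' hπ' _ hπa'
    omega
  · have := s1 π hπ _ hπa
    have := s1 π hπ _ hπb
    have := s3 π' hπ' _ hπa'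
    omega
  · have := s2 π hπ _ hπa
    have := s1 π' hπ' _ hπa'
    omega
  · exact h2 π hπ π' hπ' a a' b b' hab hab' hbb hπa hπb hπa' hπb'
  · have := s2 π hπ _ hπa
    have := s2 π hπ _ hπb
    have := s3 π' hπ' _ hπa'
    omega
  · have := s1 π' hπ' _ hπa'
    have := s1 π' hπ' _ hπb'
    have := s3 π hπ _ hπb
    omega
  · have := s2 π' hπ' _ hπa'
    have := s2 π' hπ' _ hπb'
    have := s3 π hπ _ hπb
    omega
  · have := s3 π' hπ' _ hπa'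
    have := s3 π' hπ' _ hπb'
    have := s3 π hπ _ hπb
    have := s3 π hπ _ hπa
    omega

theorem GSx_mem_map {M : Type} [AddCommMonoid M] (φ : M →+ (ℕ → ℕ)) (t : Set M) (x : ℕ → ℕ) :
    x ∈ AddSubmonoid.closure (φ '' t) ↔ ∃ y ∈ AddSubmonoid.closure t, φ y = x := by
  rw [← AddMonoidHom.map_mclosure]
  exact AddSubmonoid.mem_map

theorem GS (hK1 : K1_stmt) (hK2 : K2_stmt) (hONE : ONE_stmt) (hSPN : SPN_stmt) (hSPC : SPC_stmt)
    (hWDA : WDA_stmt) : GS_stmt := by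
  classical
  intro T _ S
  haveI := S.fin
  obtain ⟨B1, hB1⟩ := GSx_unif2 (fun n : ℕ => n) (ι := T × S.St)
    (fun i => {n : ℕ | S.Der i.2 (List.replicate n i.1)}) (fun i => hK1 T S i.1 i.2)
  obtain ⟨B2, hB2⟩ := GSx_unif2 (fun x : ℕ × ℕ => max x.1 x.2) (ι := T × T × S.St × S.St)
    (fun i => {x : ℕ × ℕ | S.Sp i.1 i.2.1 i.2.2.1 i.2.2.2 x})
    (fun i => hK2 T S i.1 i.2.1 i.2.2.1 i.2.2.2)
  let B := max B1 B2
  let B₀ : ℕ → ℕ := fun l => Nat.rec B (fun _ m => B + 1 + 2 * m) l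
  have hB₀0 : B₀ 0 = B := rfl
  have hB₀s : ∀ l, B₀ (l + 1) = B + 1 + 2 * B₀ l := fun _ => rfl
  have hmono : Monotone B₀ := monotone_nat_of_le_succ (fun l => by rw [hB₀s]; omega)
  refine ⟨B, B₀, ?_⟩
  suffices key : ∀ l : ℕ, ∀ (σ : ℕ → T) (β : S.St) (r s : ℕ) (e : ℕ → ℕ), s - r = l →
      S.DX σ β r s e →
      ∃ (a : ℕ → ℕ) (Ps : Set (ℕ → ℕ)), (∀ q, a q ≤ B₀ (s - r)) ∧
        (∀ π ∈ Ps, (∀ q, π q ≤ B) ∧ (∃ r' s' : ℕ, ∀ q, π q ≠ 0 → q = r' ∨ q = s') ∧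
          ∀ q, π q ≠ 0 → r ≤ q ∧ q ≤ s) ∧ NC Ps ∧
        (∃ x ∈ AddSubmonoid.closure Ps, e = a + x) ∧
        ∀ x ∈ AddSubmonoid.closure Ps, S.DX σ β r s (a + x) from
    fun σ β r s e h => key _ σ β r s e rfl h
  intro l
  induction l using Nat.strong_induction_on with
  | _ l ih =>
  intro σ β r s e hl hDX
  have hrs := (hWDA T S σ β r s e hDX).1
  rcases Nat.eq_or_lt_of_le hrs with hrs' | hrs'
  · -- one run
    subst hrs'
    obtain ⟨n, rfl, hn⟩ := (hONE T S σ β r e).1 hDX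
    obtain ⟨a, t, ha, ht, ⟨y, hy, hny⟩, hall⟩ := hB1 (σ r, β) n hn
    let φ : ℕ →+ (ℕ → ℕ) := AddMonoidHom.single (fun _ : ℕ => ℕ) r
    have hφ : ∀ m, φ m = Pi.single r m := fun m => rfl
    have hle : ∀ m, m ≤ B1 → ∀ q, φ m q ≤ B := by
      intro m hm q
      rw [hφ]
      by_cases hq : q = r
      · subst hq
        rw [Pi.single_eq_same]
        exact hm.trans (le_max_left _ _)
      · rw [Pi.single_eq_of_ne hq]
        exact Nat.zero_le _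
    have hsupp : ∀ m q, φ m q ≠ 0 → q = r := by
      intro m q hq
      by_contra hc
      apply hq
      rw [hφ, Pi.single_eq_of_ne hc]
    refine ⟨φ a, φ '' t, ?_, ?_, ?_, ?_, ?_⟩
    · intro q
      rw [Nat.sub_self, hB₀0]
      exact hle a ha q
    · rintro _ ⟨m, hm, rfl⟩
      refine ⟨hle m (ht m hm), ⟨r, r, fun q hq => Or.inl (hsupp m q hq)⟩, fun q hq => ?_⟩
      rw [hsupp m q hq]
      exact ⟨le_rfl, le_rfl⟩
    · rintro _ ⟨m, -, rfl⟩ _ ⟨m', -, rfl⟩ a a' b b' h1 h2 h3 h4 h5 h6 h7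
      have := hsupp m _ h4
      have := hsupp m' _ h6
      omega
    · refine ⟨φ y, (GSx_mem_map φ t _).2 ⟨y, hy, rfl⟩, ?_⟩
      rw [← map_add, hφ, ← hny]
    · intro x hx
      obtain ⟨y', hy', rfl⟩ := (GSx_mem_map φ t _).1 hx
      rw [← map_add, hφ]
      exact (hONE T S σ β r _).2 ⟨a + y', rfl, hall y' hy'⟩
  · -- two runs
    obtain ⟨δ, x, y, hSp, he, hbot⟩ := hSPN T S σ β r s e hrs' hDX
    obtain ⟨a₃, t₃, ha₃, ht₃, ⟨y₃, hy₃, hx₃⟩, hall₃⟩ := hB2 (σ r, σ s, β, δ) x hSp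
    have hB2B : B2 ≤ B := le_max_right _ _
    have hne : r ≠ s := hrs'.ne
    have hlpos : l ≠ 0 := by rw [← hl]; exact Nat.sub_ne_zero_of_lt hrs'
    obtain ⟨l', rfl⟩ : ∃ l', l = l' + 1 := Nat.exists_eq_succ_of_ne_zero hlpos
    have hφ : ∀ z : ℕ × ℕ, GSx_phi r s z = Pi.single r z.1 + Pi.single s z.2 := fun _ => rfl
    have hP3 : ∀ π ∈ GSx_phi r s '' t₃, (∀ q, π q ≤ B) ∧
        (∃ r' s' : ℕ, ∀ q, π q ≠ 0 → q = r' ∨ q = s') ∧ ∀ q, π q ≠ 0 → r ≤ q ∧ q ≤ s := by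
      rintro _ ⟨z, hz, rfl⟩
      refine ⟨GSx_phi_le hne ((ht₃ z hz).trans hB2B), ⟨r, s, fun q hq => GSx_phi_supp hq⟩, ?_⟩
      intro q hq
      rcases GSx_phi_supp hq with h | h <;> omega
    have hP3' : ∀ π ∈ GSx_phi r s '' t₃, ∀ q', π q' ≠ 0 → q' = r ∨ q' = s := by
      rintro _ ⟨z, hz, rfl⟩ q hq
      exact GSx_phi_supp hq
    rcases hbot with ⟨γ, q, e', hrd, hrq, hqs, hDX', rfl⟩ | ⟨α, γ, q, e₁, e₂, hsp, hrq, hqs, hD1, hD2, rfl⟩
    · obtain ⟨a', Ps', ha', hPs', hNC', ⟨x', hx', he'⟩, hall'⟩ := ih (s - q) (by omega) σ γ q s e' rfl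
        hDX'
      have hm : B₀ (s - q) ≤ B₀ l' := hmono (by omega)
      refine ⟨a' + Pi.single q 1 + GSx_phi r s a₃, ∅ ∪ Ps' ∪ GSx_phi r s '' t₃, ?_, ?_, ?_, ?_, ?_⟩
      · intro q'
        rw [hl, hB₀s, Pi.add_apply, Pi.add_apply]
        have h1 := ha' q'
        have h2 : (Pi.single q 1 : ℕ → ℕ) q' ≤ 1 := by
          by_cases h : q' = q
          · subst h
            rw [Pi.single_eq_same]
          · rw [Pi.single_eq_of_ne h]
            omega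
        have h3 := GSx_phi_le hne (ha₃.trans hB2B) q'
        omega
      · rintro π ((hπ | hπ) | hπ)
        · exact absurd hπ (Set.notMem_empty _)
        · obtain ⟨h1, h2, h3⟩ := hPs' π hπ
          refine ⟨h1, h2, fun q' hq' => ?_⟩
          have := h3 q' hq'
          omega
        · exact hP3 π hπ
      · refine GSx_NC (r := r) (q := q) (s := s) ?_ hNC' ?_ ?_ hrq.le hqs hP3'
        · intro π hπ
          exact absurd hπ (Set.notMem_empty _)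
        · intro π hπ
          exact absurd hπ (Set.notMem_empty _)
        · exact fun π hπ => (hPs' π hπ).2.2
      · refine ⟨x' + GSx_phi r s y₃, ?_, ?_⟩
        · refine add_mem (AddSubmonoid.closure_mono ?_ hx') (AddSubmonoid.closure_mono
            (Set.subset_union_right) ((GSx_mem_map _ t₃ _).2 ⟨y₃, hy₃, rfl⟩))
          exact fun z hz => Or.inl (Or.inr hz)
        · rw [he, he', add_assoc (a' + x' + Pi.single q 1), ← hφ, hx₃, map_add]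
          abel
      · intro z hz
        rw [AddSubmonoid.closure_union, AddSubmonoid.mem_sup] at hz
        obtain ⟨z₁, hz₁, z₂, hz₂, rfl⟩ := hz
        rw [Set.empty_union] at hz₁
        obtain ⟨w, hw, rfl⟩ := (GSx_mem_map _ t₃ _).1 hz₂
        have h1 := hall' z₁ hz₁
        have h2 : S.DX σ δ r s ((a' + z₁) + Pi.single q 1) := Sys.DX.rd hrd hrq.le h1
        have h3 := hSPC T S σ β δ r s (a₃ + w) _ hrs (hall₃ w hw) h2
        rw [add_assoc (a' + z₁ + Pi.single q 1), ← hφ, map_add] at h3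
        have e1 : a' + z₁ + Pi.single q 1 + (GSx_phi r s a₃ + GSx_phi r s w) =
            a' + Pi.single q 1 + GSx_phi r s a₃ + (z₁ + GSx_phi r s w) := by abel
        rw [e1] at h3
        exact h3
    · obtain ⟨a₁, Ps₁, ha₁, hPs₁, hNC₁, ⟨x₁, hx₁, he₁⟩, hall₁⟩ := ih (q - r) (by omega) σ α r q e₁ rfl
        hD1
      obtain ⟨a₂, Ps₂, ha₂, hPs₂, hNC₂, ⟨x₂, hx₂, he₂⟩, hall₂⟩ := ih (s - q) (by omega) σ γ q s e₂ rfl
        hD2
      have hm₁ : B₀ (q - r) ≤ B₀ l' := hmono (by omega)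
      have hm₂ : B₀ (s - q) ≤ B₀ l' := hmono (by omega)
      refine ⟨a₁ + a₂ + GSx_phi r s a₃, Ps₁ ∪ Ps₂ ∪ GSx_phi r s '' t₃, ?_, ?_, ?_, ?_, ?_⟩
      · intro q'
        rw [hl, hB₀s, Pi.add_apply, Pi.add_apply]
        have h1 := ha₁ q'
        have h2 := ha₂ q'
        have h3 := GSx_phi_le hne (ha₃.trans hB2B) q'
        omega
      · rintro π ((hπ | hπ) | hπ)
        · obtain ⟨h1, h2, h3⟩ := hPs₁ π hπ
          refine ⟨h1, h2, fun q' hq' => ?_⟩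
          have := h3 q' hq'
          omega
        · obtain ⟨h1, h2, h3⟩ := hPs₂ π hπ
          refine ⟨h1, h2, fun q' hq' => ?_⟩
          have := h3 q' hq'
          omega
        · exact hP3 π hπ
      · exact GSx_NC (r := r) (q := q) (s := s) hNC₁ hNC₂ (fun π hπ => (hPs₁ π hπ).2.2)
          (fun π hπ => (hPs₂ π hπ).2.2) hrq.le hqs.le hP3'
      · refine ⟨x₁ + x₂ + GSx_phi r s y₃, ?_, ?_⟩
        · refine add_mem (add_mem (AddSubmonoid.closure_mono ?_ hx₁)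
            (AddSubmonoid.closure_mono ?_ hx₂)) (AddSubmonoid.closure_mono
            (Set.subset_union_right) ((GSx_mem_map _ t₃ _).2 ⟨y₃, hy₃, rfl⟩))
          · exact fun z hz => Or.inl (Or.inl hz)
          · exact fun z hz => Or.inl (Or.inr hz)
        · rw [he, he₁, he₂, add_assoc (a₁ + x₁ + (a₂ + x₂)), ← hφ, hx₃, map_add]
          abel
      · intro z hz
        rw [AddSubmonoid.closure_union, AddSubmonoid.mem_sup] at hz
        obtain ⟨z₁₂, hz₁₂, z₃, hz₃, rfl⟩ := hz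
        rw [AddSubmonoid.closure_union, AddSubmonoid.mem_sup] at hz₁₂
        obtain ⟨z₁, hz₁, z₂, hz₂, rfl⟩ := hz₁₂
        obtain ⟨w, hw, rfl⟩ := (GSx_mem_map _ t₃ _).1 hz₃
        have h2 : S.DX σ δ r s ((a₁ + z₁) + (a₂ + z₂)) :=
          Sys.DX.sp hsp (hall₁ z₁ hz₁) (hall₂ z₂ hz₂)
        have h3 := hSPC T S σ β δ r s (a₃ + w) _ hrs (hall₃ w hw) h2
        rw [add_assoc (a₁ + z₁ + (a₂ + z₂)), ← hφ, map_add] at h3
        have e1 : a₁ + z₁ + (a₂ + z₂) + (GSx_phi r s a₃ + GSx_phi r s w) =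
            a₁ + a₂ + GSx_phi r s a₃ + (z₁ + z₂ + GSx_phi r s w) := by abel
        rw [e1] at h3
        exact h3

end WZ
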