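import Pool.Agent.helper84.WZ.SpecB

/-! # Project wz, module RR: assembly of the result of parts B and C -/

set_option autoImplicit false

namespace WZ

open Filter

/-- The group with identity `e`. -/
def RR_Gam (e : Ultrafilter W) : Type := {p : Ultrafilter W // InG e p}

theorem RR_gi (hGI : GI_stmt) {e : Ultrafilter W} (he : MinE e) (p : RR_Gam e) :
    ∃ q : RR_Gam e, q.1 * p.1 = e ∧ p.1 * q.1 = e := by
  obtain ⟨g, hg⟩ := p.2.2.2
  obtain ⟨q, hq, -, h1, h2⟩ := (hGI e he).1 p.1 g p.2 hg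
  exact ⟨⟨q, hq⟩, h1, h2⟩

/-- The group structure. -/
noncomputable def RR_group (hGI : GI_stmt) {e : Ultrafilter W} (he : MinE e) :
    Group (RR_Gam e) := by
  letI : Mul (RR_Gam e) := ⟨fun p q => ⟨p.1 * q.1, (hGI e he).2.2.1 p.1 q.1 p.2 q.2⟩⟩
  letI : One (RR_Gam e) := ⟨⟨e, (hGI e he).2.2.2.2⟩⟩
  letI : Inv (RR_Gam e) := ⟨fun p => (RR_gi hGI he p).choose⟩
  exact Group.ofLeftAxioms (fun p q r => Subtype.ext (mul_assoc p.1 q.1 r.1))
    (fun p => Subtype.ext p.2.1)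
    (fun p => Subtype.ext (RR_gi hGI he p).choose_spec.1)

theorem RR (hUM : UM_stmt) (hME : ME_stmt) (hGI : GI_stmt) (hRM : RM_stmt) (hQG : QG_stmt)
    (hQI : QI_stmt) (hLG : LG_stmt) (hCA : CA_stmt) (hGC : GC_stmt) : R_stmt := by
  intro Λ h0 k F hF
  obtain ⟨e, he⟩ := hME
  obtain ⟨hUM1, hUM2, hUM3, hUM4, hUM5, -, hUM7⟩ := hUM
  have hG1 := (hGI e he).1
  have hGm := (hGI e he).2.2.1
  have hGp := (hGI e he).2.2.2.1
  have hGe := (hGI e he).2.2.2.2
  letI : Group (RR_Gam e) := RR_group hGI he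
  have hmul : ∀ p q : RR_Gam e, (p * q).1 = p.1 * q.1 := fun p q => rfl
  have hone : (1 : RR_Gam e).1 = e := rfl
  have hinv1 : ∀ p : RR_Gam e, (p⁻¹).1 * p.1 = e := fun p => by
    rw [← hmul, inv_mul_cancel, hone]
  have hinv2 : ∀ p : RR_Gam e, p.1 * (p⁻¹).1 = e := fun p => by
    rw [← hmul, mul_inv_cancel, hone]
  -- the homomorphism to `G`
  have hv : ∀ p : RR_Gam e, ∃ g, p.1 ∈ UV g := fun p => p.2.2.2
  choose v0 hv0 using hv
  let v : RR_Gam e →* DZ.G :=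
    { toFun := v0
      map_one' := hUM5 _ _ e (hv0 1) he.val
      map_mul' := fun p q => hUM5 _ _ (p * q).1 (hv0 _) (hUM3 _ _ _ _ (hv0 p) (hv0 q)) }
  have hvv : ∀ p : RR_Gam e, p.1 ∈ UV (v p) := hv0
  -- the letters
  let P : ℤ × ℤ → RR_Gam e := fun u => ⟨PP e u, (hGp (FreeMonoid.of (Lt.k u))).1⟩
  have hPv : ∀ u, v (P u) = DZ.zz u := by
    intro u
    refine hUM5 _ _ (P u).1 (hvv _) ?_
    have := (hGp (FreeMonoid.of (Lt.k u))).2
    have h1 : val 1 (FreeMonoid.of (Lt.k u)) = DZ.zz u := by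
      rw [val, FreeMonoid.lift_eval_of, vl, one_smul]
    rwa [h1] at this
  have hC : ∀ N : ℤ, ∃ p : RR_Gam e, v p = Monoid.Coprod.inr (Multiplicative.ofAdd N) := by
    intro N
    obtain ⟨w, hw⟩ := hUM7 (Monoid.Coprod.inr (Multiplicative.ofAdd N))
    refine ⟨⟨_, (hGp w).1⟩, ?_⟩
    refine hUM5 _ _ _ (hvv _) ?_
    have := (hGp w).2
    rwa [hw] at this
  choose C hC using hC
  -- the subgroups
  have hRmul : ∀ i, ∀ y y', Rl (F i) e y → Rl (F i) e y' → Rl (F i) e (y * y') :=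
    fun i => (hRM (F i) e he).2.2
  have hRone : ∀ i, Rl (F i) e e := by
    intro i
    have hmo : ∀ (f : TW →* W), (∀ w : W, f (emb w) = w) → (e.map emb).map f = e := by
      intro f hf
      rw [Ultrafilter.map_map]
      have : (⇑f ∘ ⇑emb : W → W) = id := funext hf
      rw [this, Ultrafilter.map_id]
    have hst : ∀ x : Lt, x.pl.fst = x := by
      intro x
      cases x <;> rfl
    have hst2 : ∀ x : Lt, x.pl.snd = x := by
      intro x
      cases x <;> rfl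
    refine ⟨e.map emb, hmo mo ?_, hmo ke ?_, (hRM (F i) e he).2.1 e⟩
    · intro w
      have : mo.comp emb = MonoidHom.id W := by
        refine FreeMonoid.hom_eq fun x => ?_
        show mo (emb (FreeMonoid.of x)) = FreeMonoid.of x
        rw [emb, mo, FreeMonoid.map_of, FreeMonoid.map_of, hst]
      exact DFunLike.congr_fun this w
    · intro w
      have : ke.comp emb = MonoidHom.id W := by
        refine FreeMonoid.hom_eq fun x => ?_
        show ke (emb (FreeMonoid.of x)) = FreeMonoid.of x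
        rw [emb, ke, FreeMonoid.map_of, FreeMonoid.map_of, hst2]
      exact DFunLike.congr_fun this w
  let H : Fin k → Subgroup (RR_Gam e) := fun i =>
    { carrier := {y | Rl (F i) e y.1 ∧ Rl (F i) e (y⁻¹).1}
      one_mem' := by
        refine ⟨hRone i, ?_⟩
        rw [inv_one]
        exact hRone i
      mul_mem' := by
        rintro a b ⟨h1, h2⟩ ⟨h3, h4⟩
        refine ⟨hRmul i _ _ h1 h3, ?_⟩
        rw [mul_inv_rev]
        exact hRmul i _ _ h4 h2
      inv_mem' := by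
        rintro a ⟨h1, h2⟩
        refine ⟨h2, ?_⟩
        rw [inv_inv]
        exact h1 }
  obtain ⟨y, hy1, hy2⟩ := hGC (RR_Gam e) v P C hPv hC Λ h0 k H (by
    intro i γ u
    -- the label
    have hlab : ∃ d ∈ Λ, ∀ᶠ x in (γ.1 : Filter W),
        ∀ᶠ r in ((P u)⁻¹.1 * γ⁻¹.1 : Ultrafilter W).toFilter, F i x u r = d := by
      have h1 : ∀ x : W, ∃ d ∈ Λ, ∀ᶠ r in ((P u)⁻¹.1 * γ⁻¹.1 : Ultrafilter W).toFilter,
          F i x u r = d := by
        intro x
        have h2 := (Ultrafilter.eventually_exists_mem_iff (f := ((P u)⁻¹.1 * γ⁻¹.1))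
          (is := (Λ : Set (ℤ × ℤ))) (Finset.finite_toSet Λ)
          (P := fun d r => F i x u r = d)).1
          (Eventually.of_forall fun r => ⟨_, by simpa using hF i x u r, rfl⟩)
        simpa using h2
      choose d hd hd2 using h1
      have h3 := (Ultrafilter.eventually_exists_mem_iff (f := γ.1)
          (is := (Λ : Set (ℤ × ℤ))) (Finset.finite_toSet Λ)
          (P := fun d' x => d x = d')).1
          (Eventually.of_forall fun x => ⟨_, by simpa using hd x, rfl⟩)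
      obtain ⟨d', hd', h4⟩ := h3
      refine ⟨d', by simpa using hd', ?_⟩
      filter_upwards [h4] with x hx
      rw [← hx]
      exact hd2 x
    obtain ⟨d, hd, hlab⟩ := hlab
    refine ⟨d, hd, fun n => ?_⟩
    have hu : u + n • d = u + (n : ℤ) • d := by rw [natCast_zsmul]
    have hq1 : ((P u)⁻¹).1 * PP e u = e := hinv1 (P u)
    have hq2 : PP e u * ((P u)⁻¹).1 = e := hinv2 (P u)
    constructor
    · obtain ⟨p, hp, hk⟩ := hQG e ((P u)⁻¹).1 u d he ((P u)⁻¹).2 hq1 hq2 (n : ℤ)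
      have := hLG (F i) e ((P u)⁻¹).1 u d he ((P u)⁻¹).2.2.1 γ.1 γ⁻¹.1 γ.2 γ⁻¹.2 (hinv2 γ)
        hlab p hp
      rw [hk, ← hu] at this
      exact this
    · obtain ⟨p, hp, hk⟩ := hQI e ((P u)⁻¹).1 u d he ((P u)⁻¹).2 hq1 hq2 (n : ℤ)
        ((P (u + n • d) * (P u)⁻¹)⁻¹).1 ((P (u + n • d) * (P u)⁻¹)⁻¹).2 (by
          rw [← hu]
          exact hinv1 (P (u + n • d) * (P u)⁻¹))
      have := hLG (F i) e ((P u)⁻¹).1 u d he ((P u)⁻¹).2.2.1 γ.1 γ⁻¹.1 γ.2 γ⁻¹.2 (hinv2 γ)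
        hlab p hp
      rw [hk] at this
      have e1 : (γ * (P (u + n • d) * (P u)⁻¹) * γ⁻¹)⁻¹ =
          γ * (P (u + n • d) * (P u)⁻¹)⁻¹ * γ⁻¹ := by group
      rw [e1]
      exact this)
  obtain ⟨w, hw, hw2⟩ := hCA k F e y.1 (y⁻¹).1 (v y) he y.2 (y⁻¹).2 (hinv2 y) (hinv1 y) (hvv y)
    (fun i => (hy2 i).1)
  refine ⟨w, ?_, hw2⟩
  rw [hw]
  intro h
  rw [DZ.hyp, DZ.tr, h] at hy1
  simp at hy1

end WZ
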