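import Pool.Agent.helper84.WZ.SpecB

/-! # Project wz, module UM: generalities on ultrafilters -/

set_option autoImplicit false

namespace WZ

open Filter

theorem UM_map {M N : Type} [Monoid M] [Monoid N] (f : M →* N) (p q : Ultrafilter M) :
    (p * q).map f = p.map f * q.map f := by
  refine Ultrafilter.coe_inj.mp (Filter.ext' fun P => ?_)
  show (∀ᶠ m in (p : Filter M), ∀ᶠ m' in (q : Filter M), P (f (m * m'))) ↔
    ∀ᶠ m in (p : Filter M), ∀ᶠ m' in (q : Filter M), P (f m * f m')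
  simp only [map_mul]

theorem UM_pure (M : Type) [Monoid M] (a b : M) (p : Ultrafilter M) :
    (pure a : Ultrafilter M) * pure b = pure (a * b) ∧ (pure 1 : Ultrafilter M) * p = p ∧
      p * (pure 1 : Ultrafilter M) = p := by
  refine ⟨?_, ?_, ?_⟩
  · refine Ultrafilter.coe_inj.mp (Filter.ext' fun P => ?_)
    rw [Ultrafilter.eventually_mul]
    simp
  · refine Ultrafilter.coe_inj.mp (Filter.ext' fun P => ?_)
    rw [Ultrafilter.eventually_mul]
    simp
  · refine Ultrafilter.coe_inj.mp (Filter.ext' fun P => ?_)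
    rw [Ultrafilter.eventually_mul]
    simp

theorem UM_inr_pow (n : ℕ) : (Monoid.Coprod.inr (Multiplicative.ofAdd (1 : ℤ)) : DZ.G) ^ n =
    Monoid.Coprod.inr (Multiplicative.ofAdd (n : ℤ)) := by
  rw [← map_pow, ← ofAdd_nsmul]
  simp

theorem UM_surj (g : DZ.G) : ∃ w : W, val 1 w = g := by
  induction g using Monoid.Coprod.induction_on with
  | inl v =>
    refine ⟨FreeMonoid.of (Lt.k v.toAdd), ?_⟩
    rw [val, FreeMonoid.lift_eval_of, vl, one_smul]
    rfl
  | inr n =>
    obtain ⟨k, hk | hk⟩ := n.toAdd.eq_nat_or_neg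
    · refine ⟨(FreeMonoid.of (Lt.c true)) ^ k, ?_⟩
      rw [map_pow, val, FreeMonoid.lift_eval_of, vl, UM_inr_pow, ← hk]
      rfl
    · refine ⟨(FreeMonoid.of (Lt.c false)) ^ k, ?_⟩
      rw [map_pow, val, FreeMonoid.lift_eval_of, vl, inv_pow, UM_inr_pow, ← map_inv, ← ofAdd_neg,
        ← hk]
      rfl
  | mul x y hx hy =>
    obtain ⟨w1, h1⟩ := hx
    obtain ⟨w2, h2⟩ := hy
    exact ⟨w1 * w2, by rw [map_mul, h1, h2]⟩

theorem UM : UM_stmt := by
  refine ⟨fun M N _ _ f p q => UM_map f p q, fun M _ a b p => UM_pure M a b p, ?_, ?_, ?_, ?_,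
    UM_surj⟩
  · intro g h p q hp hq
    show ∀ᶠ w in ((p * q : Ultrafilter W) : Filter W), val 1 w = g * h
    rw [Ultrafilter.eventually_mul]
    filter_upwards [hp] with x hx
    filter_upwards [hq] with y hy
    rw [map_mul, hx, hy]
  · intro w
    show ∀ᶠ x in ((pure w : Ultrafilter W) : Filter W), val 1 x = val 1 w
    simp
  · intro g h p hp hq
    obtain ⟨w, hw1, hw2⟩ := ((show ∀ᶠ w in (p : Filter W), val 1 w = g from hp).and
      (show ∀ᶠ w in (p : Filter W), val 1 w = h from hq)).exists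
    rw [← hw1, hw2]
  · intro g
    exact ultrafilter_isClosed_basic {w | val 1 w = g}

end WZ
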