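import Pool.Agent.helper84.WZ.SpecA

/-! # Project wz, module WDA: soundness of the vector version -/

set_option autoImplicit false

namespace WZ

variable {T : Type}

theorem WDA_wd_succ (σ : ℕ → T) (M : ℕ) (e : ℕ → ℕ) :
    wd σ (M + 1) e = wd σ M e ++ List.replicate (e M) (σ M) := by
  simp [wd, List.range_succ, List.flatMap_append]

theorem WDA_wd_zero (σ : ℕ → T) (M : ℕ) (e : ℕ → ℕ) (h : ∀ q, q < M → e q = 0) :
    wd σ M e = [] := by
  induction M with
  | zero => rfl
  | succ M ih =>
    rw [WDA_wd_succ, ih fun q hq => h q (by omega), h M (by omega)]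
    rfl

theorem WDA_wd_single (σ : ℕ → T) (M q : ℕ) (e : ℕ → ℕ) (hq : q < M)
    (h : ∀ q', e q' ≠ 0 → q ≤ q') : wd σ M (e + Pi.single q 1) = σ q :: wd σ M e := by
  induction M with
  | zero => omega
  | succ M ih =>
    rw [WDA_wd_succ, WDA_wd_succ]
    by_cases hqM : q < M
    · rw [ih hqM, Pi.add_apply, Pi.single_eq_of_ne (by omega), add_zero]
      rfl
    · obtain rfl : q = M := by omega
      have h0 : ∀ q', q' < q → e q' = 0 := by
        intro q' hq'
        by_contra hne
        have := h q' hne
        omega
      rw [WDA_wd_zero σ q e h0, WDA_wd_zero σ q (e + Pi.single q 1) (by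
        intro q' hq'
        rw [Pi.add_apply, h0 q' hq', Pi.single_eq_of_ne (by omega), add_zero]), Pi.add_apply,
        Pi.single_eq_same, List.nil_append, List.nil_append, List.replicate_succ]

theorem WDA_wd_add (σ : ℕ → T) (M q : ℕ) (e e' : ℕ → ℕ) (h : ∀ q', e q' ≠ 0 → q' ≤ q)
    (h' : ∀ q', e' q' ≠ 0 → q ≤ q') (hqM : q < M) :
    wd σ M (e + e') = wd σ M e ++ wd σ M e' := by
  induction M with
  | zero => omega
  | succ M ih =>
    rw [WDA_wd_succ, WDA_wd_succ σ M e, WDA_wd_succ σ M e']
    by_cases hq : q < M
    · have e1 : e M = 0 := by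
        by_contra hne
        have := h M hne
        omega
      rw [ih hq, Pi.add_apply, e1, zero_add]
      simp
    · obtain rfl : q = M := by omega
      have h0 : ∀ q', q' < q → e' q' = 0 := by
        intro q' hq'
        by_contra hne
        have := h' q' hne
        omega
      have e1 : wd σ q (e + e') = wd σ q e := by
        have key : ∀ m, m ≤ q → wd σ m (e + e') = wd σ m e := by
          intro m
          induction m with
          | zero => intro _; rfl
          | succ m ihm =>
            intro hm
            rw [WDA_wd_succ, WDA_wd_succ, ihm (by omega), Pi.add_apply, h0 m (by omega), add_zero]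
        exact key q le_rfl
      rw [e1, WDA_wd_zero σ q e' h0, Pi.add_apply, List.replicate_add]
      simp

theorem WDA : WDA_stmt := by
  intro T S σ β r s e h
  induction h with
  | nl h =>
    refine ⟨le_rfl, fun q hq => absurd rfl hq, fun M _ => ?_⟩
    rw [WDA_wd_zero σ M 0 fun _ _ => rfl]
    exact Sys.Der.nl h
  | @rd β γ r q s e h hrq _ ih =>
    obtain ⟨h1, h2, h3⟩ := ih
    refine ⟨by omega, fun q' hq' => ?_, fun M hM => ?_⟩
    · by_cases hqq : q' = q
      · subst hqq
        omega
      · rw [Pi.add_apply, Pi.single_eq_of_ne hqq, add_zero] at hq'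
        have := h2 q' hq'
        omega
    · rw [WDA_wd_single σ M q e (by omega) fun q' hq' => (h2 q' hq').1]
      exact Sys.Der.rd h (h3 M hM)
  | @sp β α γ r q s e e' h _ _ ih ih' =>
    obtain ⟨h1, h2, h3⟩ := ih
    obtain ⟨h4, h5, h6⟩ := ih'
    refine ⟨by omega, fun q' hq' => ?_, fun M hM => ?_⟩
    · rw [Pi.add_apply] at hq'
      by_cases h7 : e q' = 0
      · have := h5 q' (by omega)
        omega
      · have := h2 q' h7
        omega
    · rw [WDA_wd_add σ M q e e' (fun q' hq' => (h2 q' hq').2) (fun q' hq' => (h5 q' hq').1)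
        (by omega)]
      exact Sys.Der.sp h (h3 M (by omega)) (h6 M hM)

end WZ
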