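import Pool.Agent.helper16.WZ.CF
import Pool.Agent.helper84.WZ.WDA
import Pool.Agent.helper70.WZ.WDB
import Pool.Agent.helper92.WZ.K1
import Pool.Agent.helper87.WZ.K2
import Pool.Agent.helper1.WZ.ONE
import Pool.Agent.helper1.WZ.SPN
import Pool.Agent.helper43.WZ.SPC
import Pool.Agent.helper84.WZ.GS
import Pool.Agent.helper17.WZ.ACT
import Pool.Agent.helper97.WZ.FL
import Pool.Agent.helper92.WZ.FLX
import Pool.Agent.helper16.WZ.ADJ
import Pool.Agent.helper77.WZ.LAB
import Pool.Agent.helper46.WZ.GEN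
import Pool.Agent.helper92.WZ.LA
import Pool.Agent.helper57.WZ.LB
import Pool.Agent.helper1.WZ.RE
import Pool.Agent.helper52.WZ.MV
import Pool.Agent.helper16.WZ.PSI
import Pool.Agent.helper84.WZ.UM
import Pool.Agent.helper16.WZ.EM
import Pool.Agent.helper98.WZ.MI
import Pool.Agent.helper46.WZ.ME
import Pool.Agent.helper17.WZ.GI
import Pool.Agent.helper87.WZ.RM
import Pool.Agent.helper12.WZ.QM
import Pool.Agent.helper71.WZ.QG
import Pool.Agent.helper71.WZ.QI
import Pool.Agent.helper71.WZ.LG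
import Pool.Agent.helper71.WZ.CA
import Pool.Agent.helper98.WZ.GC
import Pool.Agent.helper84.WZ.AAS
import Pool.Agent.helper84.WZ.RR
import Pool.Agent.helper84.WZ.FIN

/-! # Project wz: the full result (MP_65b1f6_lc, S14815) -/

set_option autoImplicit false

namespace WZ

theorem z_WDA : WDA_stmt := WDA
theorem z_ONE : ONE_stmt := ONE z_WDA
theorem z_K2 : K2_stmt := K2 K1
theorem z_SPN : SPN_stmt := SPN z_WDA z_ONE
theorem z_SPC : SPC_stmt := SPC z_ONE
theorem z_GS : GS_stmt := GS K1 z_K2 z_ONE z_SPN z_SPC z_WDA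
theorem z_A : A_stmt :=
  AAS CF z_WDA WDB z_GS ACT (FLX FL) (LAB ADJ) GEN LA LB RE MV PSI

theorem z_RM : RM_stmt := RM UM EM
theorem z_QM : QM_stmt := QM UM EM
theorem z_QG : QG_stmt := QG UM EM
theorem z_QI : QI_stmt := QI UM EM MI (GI UM) z_QM z_QG
theorem z_GI : GI_stmt := GI UM
theorem z_R : R_stmt :=
  RR UM (ME MI UM) z_GI z_RM z_QG z_QI (LG UM EM) (CA UM EM z_RM) GC

/-- The word problem of `ℤ² * ℤ` is not an intersection of finitely many context-free
languages. -/
theorem main : FIN_stmt := FIN z_A z_R PSI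

end WZ
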