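import Pool.Agent.helper9.DZ.Confined

/-!
# Definitions for project wz (MP_65b1f6_lc, frozen statement S14815)

The word problem of `ℤ² * ℤ` is not an intersection of finitely many context-free languages.

* abstract words `W` over the letters `c`, `c⁻¹`, `κ_v` (`v ∈ ℤ²`), pair words `TW` (some letters
  `κ_v` are marked and carry a second vector `v'`);
* binary derivation systems `Sys` (a normal form of context-free grammars), vector version `DX`;
* the realisation of abstract words by words in `a, a⁻¹, b, b⁻¹, c, c⁻¹`.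
-/

set_option autoImplicit false

namespace WZ

open Filter

/-- The semigroup of ultrafilters: `A ∈ U * V ↔ ∀ᶠ x in U, ∀ᶠ y in V, x * y ∈ A`. -/
scoped instance instSemigroupUltrafilter {M : Type} [Semigroup M] : Semigroup (Ultrafilter M) :=
  Ultrafilter.semigroup

/-! ## Abstract words -/

/-- Abstract letters: `c true = c`, `c false = c⁻¹`, `k v = κ_v`. -/
inductive Lt
  | c (s : Bool)
  | k (v : ℤ × ℤ)

/-- Pair letters: as `Lt`, and marked letters `m v v'` (`κ_v` becomes `κ_{v'}`). -/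
inductive PL
  | c (s : Bool)
  | k (v : ℤ × ℤ)
  | m (v v' : ℤ × ℤ)

/-- Abstract words. -/
abbrev W := FreeMonoid Lt

/-- Pair words. -/
abbrev TW := FreeMonoid PL

/-- The first letter of a pair letter. -/
def PL.fst : PL → Lt
  | .c s => .c s
  | .k v => .k v
  | .m v _ => .k v

/-- The second letter of a pair letter. -/
def PL.snd : PL → Lt
  | .c s => .c s
  | .k v => .k v
  | .m _ v' => .k v'

/-- An abstract letter as a pair letter. -/
def Lt.pl : Lt → PL
  | .c s => .c s
  | .k v => .k v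

/-- Mode word of a pair word. -/
def mo : TW →* W := FreeMonoid.map PL.fst

/-- Kept word of a pair word. -/
def ke : TW →* W := FreeMonoid.map PL.snd

/-- Abstract words as pair words without marks. -/
def emb : W →* TW := FreeMonoid.map Lt.pl

/-- The value of a letter in `ℤ² * ℤ`, with `κ_v` of value `D v`. -/
def vl (D : ℤ) : Lt → DZ.G
  | .c true => Monoid.Coprod.inr (Multiplicative.ofAdd (1 : ℤ))
  | .c false => (Monoid.Coprod.inr (Multiplicative.ofAdd (1 : ℤ)))⁻¹
  | .k v => DZ.zz (D • v)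

/-- The value of an abstract word. -/
def val (D : ℤ) : W →* DZ.G := FreeMonoid.lift (vl D)

/-- The pair word `P` is legal for the labelling `F`: every marked letter is moved along its label,
which is computed in the mode word. -/
def Legal (F : W → ℤ × ℤ → W → ℤ × ℤ) (P : TW) : Prop :=
  ∀ (l : TW) (v v' : ℤ × ℤ) (r : TW), P = l * FreeMonoid.of (PL.m v v') * r →
    ∃ t : ℤ, v' = v + t • F (mo l) v (mo r)

/-- Legality in the context `x _ z`. -/
def LegalIn (F : W → ℤ × ℤ → W → ℤ × ℤ) (x : W) (P : TW) (z : W) : Prop :=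
  ∀ (l : TW) (v v' : ℤ × ℤ) (r : TW), P = l * FreeMonoid.of (PL.m v v') * r →
    ∃ t : ℤ, v' = v + t • F (x * mo l) v (mo r * z)

/-- All vectors of the word have entries of absolute value at most `n`. -/
def Box (n : ℕ) (s : W) : Prop := ∀ v : ℤ × ℤ, Lt.k v ∈ s.toList → |v.1| ≤ n ∧ |v.2| ≤ n

/-! ## Ultrafilters on abstract words -/

/-- The ultrafilters concentrated on the words of value `g`. -/
def UV (g : DZ.G) : Set (Ultrafilter W) := {p | ∀ᶠ w in (p : Filter W), val 1 w = g}

/-- A minimal idempotent of the semigroup of ultrafilters on trivial words. -/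
structure MinE (e : Ultrafilter W) : Prop where
  val : e ∈ UV 1
  idem : e * e = e
  min : ∀ p ∈ UV 1, ∃ q ∈ UV 1, q * (p * e) = e

/-- The ultrafilter `p` belongs to the group with identity `e`. -/
def InG (e p : Ultrafilter W) : Prop := e * p = p ∧ p * e = p ∧ ∃ g, p ∈ UV g

/-- The element `e κ_u e`. -/
def PP (e : Ultrafilter W) (u : ℤ × ℤ) : Ultrafilter W :=
  e * (pure (FreeMonoid.of (Lt.k u)) : Ultrafilter W) * e

/-- The pair ultrafilter `p` is legal in the context `e _ e`. -/
def Leg (F : W → ℤ × ℤ → W → ℤ × ℤ) (e : Ultrafilter W) (p : Ultrafilter TW) : Prop :=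
  ∀ᶠ x in (e : Filter W), ∀ᶠ P in (p : Filter TW), ∀ᶠ z in (e : Filter W), LegalIn F x P z

/-- `y` is the kept value of a legal pair ultrafilter of mode value `e`. -/
def Rl (F : W → ℤ × ℤ → W → ℤ × ℤ) (e y : Ultrafilter W) : Prop :=
  ∃ p : Ultrafilter TW, p.map mo = e ∧ p.map ke = y ∧ Leg F e p

/-- Pair ultrafilters of mode value `e` all of whose marks are of the form `[u, u + t d]` and have
the view `(e, q)`. -/
def QQ (e q : Ultrafilter W) (u d : ℤ × ℤ) : Set (Ultrafilter TW) :=
  {p | p.map mo = e ∧ ∀ A : Set (W × W),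
    (∀ᶠ x in (e : Filter W), ∀ᶠ r in (q : Filter W), (x, r) ∈ A) →
      ∀ᶠ P in (p : Filter TW), ∀ (l : TW) (v v' : ℤ × ℤ) (r : TW),
        P = l * FreeMonoid.of (PL.m v v') * r →
          v = u ∧ (∃ t : ℤ, v' = u + t • d) ∧ (mo l, mo r) ∈ A}

/-! ## Derivation systems -/

/-- A binary derivation system: a state is erased (`nl`), reads a letter and continues in another
state (`rd`), or splits into two states (`sp`). -/
structure Sys (T : Type) where
  St : Type
  fin : Finite St
  nl : St → Prop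
  rd : St → T → St → Prop
  sp : St → St → St → Prop

variable {T : Type}

/-- The words derived from a state. -/
inductive Sys.Der (S : Sys T) : S.St → List T → Prop
  | nl {β : S.St} : S.nl β → S.Der β []
  | rd {β γ : S.St} {a : T} {w : List T} : S.rd β a γ → S.Der γ w → S.Der β (a :: w)
  | sp {β α γ : S.St} {u v : List T} : S.sp β α γ → S.Der α u → S.Der γ v → S.Der β (u ++ v)

/-- The word `σ_0^(e 0) σ_1^(e 1) ... σ_(M-1)^(e (M-1))`. -/
def wd (σ : ℕ → T) (M : ℕ) (e : ℕ → ℕ) : List T :=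
  (List.range M).flatMap (fun q => List.replicate (e q) (σ q))

/-- Vector version of the derivations: `S.DX σ β r s e` says that `β` derives a word with `e q`
letters `σ q` in the run `q`, in the order of the runs, where all runs which are used are in
`[r, s]`, the run of the last letter is `s` (or there is no letter and `r = s`). -/
inductive Sys.DX (S : Sys T) (σ : ℕ → T) : S.St → ℕ → ℕ → (ℕ → ℕ) → Prop
  | nl {β : S.St} {r : ℕ} : S.nl β → S.DX σ β r r 0
  | rd {β γ : S.St} {r q s : ℕ} {e : ℕ → ℕ} : S.rd β (σ q) γ → r ≤ q → S.DX σ γ q s e →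
      S.DX σ β r s (e + Pi.single q 1)
  | sp {β α γ : S.St} {r q s : ℕ} {e e' : ℕ → ℕ} : S.sp β α γ → S.DX σ α r q e →
      S.DX σ γ q s e' → S.DX σ β r s (e + e')

/-- Spines: contexts from the state `β` to the state `δ` adding `x.1` letters `a` on the left and
`x.2` letters `b` on the right. -/
inductive Sys.Sp (S : Sys T) (a b : T) : S.St → S.St → ℕ × ℕ → Prop
  | refl (β : S.St) : S.Sp a b β β 0
  | rd {β γ δ : S.St} {x : ℕ × ℕ} : S.rd β a γ → S.Sp a b γ δ x → S.Sp a b β δ (x + (1, 0))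
  | lf {β α γ δ : S.St} {n : ℕ} {x : ℕ × ℕ} : S.sp β α γ → S.Der α (List.replicate n a) →
      S.Sp a b γ δ x → S.Sp a b β δ (x + (n, 0))
  | rt {β α γ δ : S.St} {n : ℕ} {x : ℕ × ℕ} : S.sp β α γ → S.Der γ (List.replicate n b) →
      S.Sp a b α δ x → S.Sp a b β δ (x + (0, n))

/-- Periods with entries at most `B`, supported below `M` on at most two runs. -/
def Sm (B M : ℕ) (Ps : Set (ℕ → ℕ)) : Prop :=
  ∀ π ∈ Ps, (∀ q, π q ≤ B) ∧ (∀ q, M ≤ q → π q = 0) ∧ ∃ r s : ℕ, ∀ q, π q ≠ 0 → q = r ∨ q = s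

/-- No two periods cross. -/
def NC (Ps : Set (ℕ → ℕ)) : Prop :=
  ∀ π ∈ Ps, ∀ π' ∈ Ps, ∀ r r' s s' : ℕ, r < r' → r' < s → s < s' →
    π r ≠ 0 → π s ≠ 0 → π' r' ≠ 0 → π' s' ≠ 0 → False

/-! ## The realisation of abstract words

The letter in position `p` is realised by the `2 h + 2` runs with indices
`p (2 h + 2) + u`, `u < 2 h + 2`: the runs `u < 2 h - 2` are runs of `a` (`u` even) and `b`
(`u` odd), the run `u = 2 h - 2` is a run of `a⁻¹`, `u = 2 h - 1` of `b⁻¹`, `u = 2 h` of `c`,
`u = 2 h + 1` of `c⁻¹`. -/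

/-- The letter of the run `q`. -/
def sg (h q : ℕ) : Fin 6 :=
  if q % (2 * h + 2) < 2 * h - 2 then (if q % (2 * h + 2) % 2 = 0 then 0 else 2)
  else if q % (2 * h + 2) = 2 * h - 2 then 1
  else if q % (2 * h + 2) = 2 * h - 1 then 3
  else if q % (2 * h + 2) = 2 * h then 4 else 5

/-- The sum of the lengths of the runs of `a` (`j = 0`) or `b` (`j = 1`) in position `p`. -/
def SR (h R p j : ℕ) : ℕ := ∑ i ∈ Finset.range (h - 1), R ^ (p * (2 * h + 2) + (2 * i + j) + 1)

/-- The length of the run `u` in position `p` for a letter. -/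
def exl (h R D p : ℕ) : Lt → ℕ → ℕ
  | .c true, u => if u = 2 * h then 1 else 0
  | .c false, u => if u = 2 * h + 1 then 1 else 0
  | .k v, u =>
    if u < 2 * h - 2 then R ^ (p * (2 * h + 2) + u + 1)
    else if u = 2 * h - 2 then ((SR h R p 0 : ℤ) - D * v.1).toNat
    else if u = 2 * h - 1 then ((SR h R p 1 : ℤ) - D * v.2).toNat
    else 0

/-- The vector of run lengths of the realisation of an abstract word. -/
def ex (h R D : ℕ) (s : W) (q : ℕ) : ℕ :=
  match s.toList[q / (2 * h + 2)]? with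
  | none => 0
  | some x => exl h R D (q / (2 * h + 2)) x (q % (2 * h + 2))

/-- The realisation of an abstract word (of length at most `n`). -/
def real (h R D n : ℕ) (s : W) : List (Fin 6) := wd (sg h) (n * (2 * h + 2)) (ex h R D s)

/-- The run `q` is one of the long runs of a position satisfying `lng`. -/
def LR (h : ℕ) (lng : ℕ → Prop) (q : ℕ) : Prop :=
  lng (q / (2 * h + 2)) ∧ q % (2 * h + 2) < 2 * h

/-- Flow property: every long run belongs to a period of `Q` supported on long runs in positions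
which are not smaller. -/
def FP (h : ℕ) (lng : ℕ → Prop) (Q : Set (ℕ → ℕ)) : Prop :=
  ∀ q, LR h lng q → ∃ π ∈ Q, π q ≠ 0 ∧
    ∀ q', π q' ≠ 0 → LR h lng q' ∧ q / (2 * h + 2) ≤ q' / (2 * h + 2)

/-- The functional `ψ` vanishes on `Q`. -/
def Ann (M : ℕ) (Q : Set (ℕ → ℕ)) (ψ : ℕ → ℚ) : Prop :=
  ∀ π ∈ Q, ∑ q ∈ Finset.range M, ψ q * (π q : ℚ) = 0

/-- The weight of a long run depends only on its position and its type (`a` or `b`); the last two
runs have negative letters. -/
def BC (h : ℕ) (lng : ℕ → Prop) (ψ : ℕ → ℚ) : Prop :=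
  ∀ p u : ℕ, lng p → u < 2 * h - 2 →
    ψ (p * (2 * h + 2) + u) = - ψ (p * (2 * h + 2) + (2 * h - 2 + u % 2))

/-- All admissible functionals vanish on the direction `d` in position `p`. -/
def Rel (h M : ℕ) (lng : ℕ → Prop) (Q : Set (ℕ → ℕ)) (p : ℕ) (d : ℤ × ℤ) : Prop :=
  ∀ ψ : ℕ → ℚ, Ann M Q ψ → BC h lng ψ →
    ψ (p * (2 * h + 2) + (2 * h - 2)) * (d.1 : ℚ) +
      ψ (p * (2 * h + 2) + (2 * h - 1)) * (d.2 : ℚ) = 0

end WZ
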