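import Pool.Agent.helper84.WZ.Defs

/-!
# Project wz, part A: from context-free languages to labels

Statements only.  Every statement has a proof sketch in its docstring.  Module `XX`: file
`Pool/Agent/<seat>/WZ/XX.lean`, `import Pool.Agent.helper84.WZ.SpecA`, `namespace WZ`,
`theorem XX (h : YY_stmt) ... : XX_stmt`; any other statement may be a hypothesis.
-/

set_option autoImplicit false

namespace WZ

open Filter

/-! ## Grammars -/

/-- **CF.** A context-free language is given by a state of a binary derivation system.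
Proof: `g` with `g.language = L`.  States: the subtype of the lists `Symbol T g.NT` which are
`[nonterminal g.initial]` or a suffix of `r.output` for a rule `r ∈ g.rules` (finite).
`nl β` iff `β = []`; `rd β a γ` iff `β = terminal a :: γ`; `sp β α γ` iff `β = nonterminal A :: γ`
and `(A → α)` is a rule of `g`.  `Der β w → g.Derives β (w.map terminal)` by induction.  Converse:
if `g.Derives u (w.map terminal)` for a list `u` all of whose suffixes... : prove by induction on
the derivation (`Relation.ReflTransGen.head_induction_on`) that `u` derives `w` in the auxiliary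
inductive predicate on all lists (`nil`, `term`, `nonterm`), where one rewriting step
`p ++ [A] ++ q → p ++ α ++ q` is handled by the splitting lemma (a list `u ++ v` derives `w` iff
`w = w₁ ++ w₂` with `u` deriving `w₁`, `v` deriving `w₂`); then restrict to the states. -/
def CF_stmt : Prop :=
  ∀ (T : Type) (L : Language T), L.IsContextFree →
    ∃ (S : Sys T) (β : S.St), ∀ w : List T, w ∈ L ↔ S.Der β w

/-- **WDA.** Soundness of the vector version.  Induction on `DX`: for `rd` the vector `e` is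
supported in `[q, s]`, so adding one letter in the run `q` puts it at the beginning of the word;
for `sp` the vectors are supported in `[r, q]` and `[q, s]`, so the words are concatenated. -/
def WDA_stmt : Prop :=
  ∀ (T : Type) (S : Sys T) (σ : ℕ → T) (β : S.St) (r s : ℕ) (e : ℕ → ℕ), S.DX σ β r s e →
    r ≤ s ∧ (∀ q, e q ≠ 0 → r ≤ q ∧ q ≤ s) ∧ ∀ M, s < M → S.Der β (wd σ M e)

/-- **WDB.** Completeness of the vector version.  Prove by induction on `Der`: if `ℓ : List ℕ` is
sorted (weakly increasing) with all entries `≥ r` and `β` derives `ℓ.map σ`, then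
`DX σ β r s (fun q => ℓ.count q)` where `s` is the last entry of `r :: ℓ`.  Then apply it to
`ℓ = (List.range M).flatMap (fun q => List.replicate (e q) q)`, `r = 0`. -/
def WDB_stmt : Prop :=
  ∀ (T : Type) (S : Sys T) (σ : ℕ → T) (β : S.St) (M : ℕ) (e : ℕ → ℕ), 0 < M →
    (∀ q, M ≤ q → e q = 0) → S.Der β (wd σ M e) → ∃ s, s < M ∧ S.DX σ β 0 s e

/-- **K1.** One-letter languages are semilinear (ultimately periodic,
`Nat.isSemilinearSet_iff_ultimately_periodic`).
Write `X β = {n | Der β (replicate n a)}`.  Call `β` pumpable if there is `π > 0` with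
`∀ x ∈ X β, x + π ∈ X β`; choose such a `π_β` and let `P > 0` be the product of the chosen
`π_β`.  (1) By induction on the derivation: every `x ∈ X β` either satisfies
`∀ t, x + t * P ∈ X β`, or is derived by a tree all of whose states are not pumpable.
(2) The set of numbers derived from `β` by trees all of whose states are in a set `V` of
non-pumpable states is finite: induction on the cardinality of `V`.  Claim: if a tree with root
`β` has all its states in `V`, value `x`, and `α ∈ V`, then either all states are in `V \ {α}`, or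
there are `c`, `x'` with `x = c + x'`, `x'` the value of a tree with root `α`, states in `V`, of
size not larger, and `∀ y ∈ X α, c + y ∈ X β`.  Apply the claim to the children of a tree with root
`α` and value `x` of minimal size: in the second case `c + y ∈ X α` for all `y ∈ X α`, so `c = 0`
(`α` is not pumpable), which contradicts minimality; hence the children have all their states in
`V \ {α}`.  (3) From (1), (2): for `x` large, `x ∈ X β → x + P ∈ X β`, hence `X β` is ultimately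
periodic with period `P`. -/
def K1_stmt : Prop :=
  ∀ (T : Type) (S : Sys T) (a : T) (β : S.St),
    IsSemilinearSet {n : ℕ | S.Der β (List.replicate n a)}

/-- **K2.** The sets of spines are semilinear (uses K1).  Kleene's algorithm: one step from `β` to
`γ` has the semilinear label set `E β γ` = `{(1,0)}` if `rd β a γ`, union of `X1 α a × {0}` for
`sp β α γ`, union of `{0} × X1 γ' b` for `sp β γ γ'` (images of the sets of K1 under additive maps
`ℕ → ℕ × ℕ`, finite unions).  For a set `U` of states let `P U β δ` be the set of the labels of paths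
all of whose intermediate states are in `U`; `P (U ∪ {κ}) β δ = P U β δ ∪ (P U β κ +
closure (P U κ κ) + P U κ δ)`.  Use `IsSemilinearSet.add`, `.union`, `.closure`, `.iUnion`. -/
def K2_stmt : Prop :=
  ∀ (T : Type) (S : Sys T) (a b : T) (β δ : S.St),
    IsSemilinearSet {x : ℕ × ℕ | S.Sp a b β δ x}

/-- **ONE.** Derivations inside one run.  Both directions by induction (for the first one: in `DX β
r r e` all runs are `r`, use `r ≤ q ≤ s` from WDA). -/
def ONE_stmt : Prop :=
  ∀ (T : Type) (S : Sys T) (σ : ℕ → T) (β : S.St) (r : ℕ) (e : ℕ → ℕ),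
    S.DX σ β r r e ↔ ∃ n : ℕ, e = Pi.single r n ∧ S.Der β (List.replicate n (σ r))

/-- **SPN.** Spine decomposition (uses WDA, ONE).  Induction on `DX`.  `nl` is impossible because
`r < s`.  `rd` with letter in the run `q`: if `q = r` it is a spine step, else the bottom (first
alternative) with `x = 0`.  `sp` with middle run `q`: `q = r`: the left child is in one run (ONE),
spine step `lf`; `q = s`: the right child is in one run, spine step `rt`; `r < q < s`: bottom. -/
def SPN_stmt : Prop :=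
  ∀ (T : Type) (S : Sys T) (σ : ℕ → T) (β : S.St) (r s : ℕ) (e : ℕ → ℕ), r < s →
    S.DX σ β r s e → ∃ (δ : S.St) (x : ℕ × ℕ) (y : ℕ → ℕ), S.Sp (σ r) (σ s) β δ x ∧
      e = y + Pi.single r x.1 + Pi.single s x.2 ∧
      ((∃ (γ : S.St) (q : ℕ) (e' : ℕ → ℕ), S.rd δ (σ q) γ ∧ r < q ∧ q ≤ s ∧ S.DX σ γ q s e' ∧
          y = e' + Pi.single q 1) ∨
        (∃ (α γ : S.St) (q : ℕ) (e₁ e₂ : ℕ → ℕ), S.sp δ α γ ∧ r < q ∧ q < s ∧
          S.DX σ α r q e₁ ∧ S.DX σ γ q s e₂ ∧ y = e₁ + e₂))

/-- **SPC.** Spines may be put on top (uses ONE for the side trees).  Induction on `Sp`. -/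
def SPC_stmt : Prop :=
  ∀ (T : Type) (S : Sys T) (σ : ℕ → T) (β δ : S.St) (r s : ℕ) (x : ℕ × ℕ) (y : ℕ → ℕ), r ≤ s →
    S.Sp (σ r) (σ s) β δ x → S.DX σ δ r s y →
      S.DX σ β r s (y + Pi.single r x.1 + Pi.single s x.2)

/-- **GS.** Ginsburg–Spanier with uniform periods (uses K1, K2, ONE, SPN, SPC, WDA).  There are
finitely many pairs of letters and states, so K1 and K2 give one bound `B` for the base points
and the periods of finite linear decompositions of all the sets `{n | Der β (replicate n a)}` and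
`{x | Sp a b β δ x}`.  Strong induction on `s - r`.
`s = r`: ONE and K1 (`Ps` = periods `Pi.single r π`).  `r < s`: SPN gives a spine and a bottom;
the induction hypothesis applies to the one or two children (`s - q < s - r`, `q - r < s - r`),
with base points `a₁, a₂` and periods `Ps₁` (supported in `[r, q]`), `Ps₂` (supported in
`[q, s]`); the spine vector is in a linear set `a₃ + closure Ps₃ ⊆ {x | Sp ..}`; take
`Ps = Ps₁ ∪ Ps₂ ∪ {Pi.single r π.1 + Pi.single s π.2 | π ∈ Ps₃}`,
`B₀ (l) = B + 1 + 2 * B₀ (l - 1)` (monotone).  No crossing: a crossing `r₁ < r₂ < s₁ < s₂` needs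
two periods in the same `Psᵢ`.  The last claim: SPC, and `DX.rd` / `DX.sp` for the children. -/
def GS_stmt : Prop :=
  ∀ (T : Type) [Finite T] (S : Sys T), ∃ (B : ℕ) (B₀ : ℕ → ℕ),
    ∀ (σ : ℕ → T) (β : S.St) (r s : ℕ) (e : ℕ → ℕ), S.DX σ β r s e →
      ∃ (a : ℕ → ℕ) (Ps : Set (ℕ → ℕ)), (∀ q, a q ≤ B₀ (s - r)) ∧
        (∀ π ∈ Ps, (∀ q, π q ≤ B) ∧ (∃ r' s' : ℕ, ∀ q, π q ≠ 0 → q = r' ∨ q = s') ∧
          ∀ q, π q ≠ 0 → r ≤ q ∧ q ≤ s) ∧ NC Ps ∧
        (∃ x ∈ AddSubmonoid.closure Ps, e = a + x) ∧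
        ∀ x ∈ AddSubmonoid.closure Ps, S.DX σ β r s (a + x)

/-- **ACT.** Active periods.  `x ∈ closure Ps` is a finite sum `∑ nn π • π`; `Q` = the `π ∈ Ps`
with `nn π ≥ T`; `a' = a + ` the rest.  The number of vectors with entries `≤ B` supported below
`M` is at most `K = (B + 1) ^ M`, so `S₀ = B₁ + K * T * B`. -/
def ACT_stmt : Prop :=
  ∀ B B₁ M T : ℕ, ∃ S₀ K : ℕ, ∀ (e a : ℕ → ℕ) (Ps : Set (ℕ → ℕ)), (∀ q, a q ≤ B₁) →
    (∀ π ∈ Ps, (∀ q, π q ≤ B) ∧ ∀ q, M ≤ q → π q = 0) →
    (∃ x ∈ AddSubmonoid.closure Ps, e = a + x) →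
    ∃ (Q : Finset (ℕ → ℕ)) (nn : (ℕ → ℕ) → ℕ) (a' : ℕ → ℕ), (Q : Set (ℕ → ℕ)) ⊆ Ps ∧
      Q.card ≤ K ∧ (∀ π ∈ Q, T ≤ nn π) ∧ (∀ q, a' q ≤ S₀) ∧
      (∀ q, e q = a' q + ∑ π ∈ Q, nn π * π q) ∧ ∃ x ∈ AddSubmonoid.closure Ps, a' = a + x

/-! ## Flows -/

/-- **FL.** Flow lemma.  Let `q` be a long run.  `e q - S₀ ≤ ∑ nn π * π q`, so some `π ∈ Q` has
`Q.card * (nn π * π q) ≥ e q - S₀ > 0`, in particular `π q ≠ 0`.  If `π q' ≠ 0` then
`e q' ≥ nn π`, hence `Q.card * B * e q' ≥ Q.card * nn π * π q ≥ e q - S₀ ≥ X p - S₀`, so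
`e q' > 1` and `e q' > Y p'` for all long positions `p' < p`. -/
def FL_stmt : Prop :=
  ∀ (h B S₀ : ℕ) (Q : Finset (ℕ → ℕ)) (nn : (ℕ → ℕ) → ℕ) (a' e : ℕ → ℕ) (lng : ℕ → Prop)
    (X Y : ℕ → ℕ), (∀ q, a' q ≤ S₀) → (∀ π ∈ Q, ∀ q, π q ≤ B) →
    (∀ q, e q = a' q + ∑ π ∈ Q, nn π * π q) → (∀ q, ¬ LR h lng q → e q ≤ 1) →
    (∀ q, LR h lng q → X (q / (2 * h + 2)) ≤ e q ∧ e q ≤ Y (q / (2 * h + 2))) →
    (∀ p, lng p → Q.card * B * 2 + S₀ < X p) →
    (∀ p p', lng p → lng p' → p' < p → Q.card * B * (Y p' + 1) + S₀ < X p) →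
    FP h lng (Q : Set (ℕ → ℕ))

/-- **FLX.** The flow property for realisations (uses FL).  `X p = R ^ (p (2h+2) + 1)`,
`Y p = R ^ (p (2h+2) + 2h)`; the last two runs of a long position have length
`R^(p(2h+2)+1+j) + R^(p(2h+2)+3+j) + ... - D v_j`, which is between these bounds when `R` is
large (`h ≥ 3` gives two summands).  Runs which are not long have length `≤ 1`. -/
def FLX_stmt : Prop :=
  ∀ h n B S₀ K D : ℕ, 3 ≤ h → ∃ R₀ : ℕ, ∀ R : ℕ, R₀ ≤ R → ∀ s : W, s.length ≤ n → Box n s →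
    ∀ (Q : Finset (ℕ → ℕ)) (nn : (ℕ → ℕ) → ℕ) (a' : ℕ → ℕ), Q.card ≤ K →
      (∀ π ∈ Q, ∀ q, π q ≤ B) → (∀ q, a' q ≤ S₀) →
      (∀ q, ex h R D s q = a' q + ∑ π ∈ Q, nn π * π q) →
      FP h (fun p => ∃ v, s.toList[p]? = some (Lt.k v)) (Q : Set (ℕ → ℕ))

/-- **ADJ.** If some nonzero period is supported in the long runs of the position `p`, then there
is a small relation.  Take such a `π` with minimal spread (largest minus smallest element of the
support, 0 if the support is one run).  Spread 0, support `{q}`: `ψ q = 0` for all `ψ`, and `ψ q =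
± ψ (last run of the type of q)` by BC, so `d = (1,0)` or `(0,1)`.  Spread 1, support `{q, q+1}`:
the two runs have different types and `ψ q π q + ψ (q+1) π (q+1) = 0` gives `d` with entries
`± π q`, `± π (q+1)`.  Spread `≥ 2`, support `{q, q'}`: by FP the run `q + 1` is in the support of
some `π' ∈ Q` supported on long runs in positions `≥ p`; by NC (with `π`) the support of `π'` is in
`[q, q']`, hence in the position `p`, and contains `q + 1`, so `π'` has a smaller spread. -/
def ADJ_stmt : Prop :=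
  ∀ (h n B M : ℕ) (lng : ℕ → Prop) (Q : Set (ℕ → ℕ)), 3 ≤ h → M = n * (2 * h + 2) →
    (∀ p, lng p → p < n) → Sm B M Q → NC Q → FP h lng Q → ∀ p, lng p →
    (∃ π ∈ Q, (∃ q, π q ≠ 0) ∧ ∀ q, π q ≠ 0 → LR h lng q ∧ q / (2 * h + 2) = p) →
    ∃ d : ℤ × ℤ, d ≠ 0 ∧ |d.1| ≤ B ∧ |d.2| ≤ B ∧ Rel h M lng Q p d

/-- **LAB.** Every long position has a label (uses ADJ).  If some nonzero period is supported in
the long runs of `p`: ADJ.  Otherwise by FP every long run `r_j = p (2h+2) + j` (`j < 2h`) is in the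
support of some `π_j ∈ Q` with support `{r_j, t_j}`, `t_j` a long run in a position `> p`.  By NC
`t_(j+1) ≤ t_j` (else `r_j < r_(j+1) < t_j < t_(j+1)`).  The positions of the `t_j` are `< n < 2h`, so
for some `j` the runs `t = t_j`, `t' = t_(j+1)` are in the same position `p'`.  Relations for all `ψ`
(with `r = r_j`, `r' = r_(j+1)`, which have different types): `ψ r π_j r + ψ t π_j t = 0`,
`ψ r' π_(j+1) r' + ψ t' π_(j+1) t' = 0`.  If `t` and `t'` have the same type then `ψ t = ± ψ t'`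
(BC) and one eliminates.  If the types differ then `t' < t`; by FP `t'` is in the support of some
`π* ∈ Q` supported on long runs in positions `≥ p'`, and by NC with `π_j` (`r < t' < t < z`) the
support of `π*` is in positions `≤ p'`; so ADJ applies to `p'` and gives a third relation between
`ψ t` and `ψ t'` (up to sign), with coefficients `≤ B`, not both zero.  Eliminating `ψ t`, `ψ t'`
gives `d ≠ 0` with entries at most `B ^ 3`. -/
def LAB_stmt : Prop :=
  ∀ (h n B M : ℕ) (lng : ℕ → Prop) (Q : Set (ℕ → ℕ)), 3 ≤ h → n < h → M = n * (2 * h + 2) →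
    (∀ p, lng p → p < n) → Sm B M Q → NC Q → FP h lng Q → ∀ p, lng p →
    ∃ d : ℤ × ℤ, d ≠ 0 ∧ |d.1| ≤ (B : ℤ) ^ 3 ∧ |d.2| ≤ (B : ℤ) ^ 3 ∧ Rel h M lng Q p d

/-! ## Genericity and linear algebra -/

/-- **GEN.** A small value of a bounded integral functional on the realisation forces the block
condition.  The sum is `∑ over long p, u < 2h-2 of (φ (p(2h+2)+u) + φ (p(2h+2) + (2h-2+u%2))) *
R^(p(2h+2)+u+1)` plus a remainder of absolute value `≤ n (2h+2) H (D n + 1)`; the coefficients
are bounded by `2H`, so for `R` large (base `R` digits: if `|∑ c_i R^(i+1)| ≤ C` with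
`|c_i| ≤ 2H` and `R > 2 * (2 H + C) + 2` then all `c_i = 0`) all coefficients vanish. -/
def GEN_stmt : Prop :=
  ∀ h n H S₁ D : ℕ, 3 ≤ h → ∃ R₀ : ℕ, ∀ R : ℕ, R₀ ≤ R → ∀ s : W, s.length ≤ n → Box n s →
    ∀ φ : ℕ → ℤ, (∀ q, |φ q| ≤ H) →
      |∑ q ∈ Finset.range (n * (2 * h + 2)), φ q * (ex h R D s q : ℤ)| ≤ S₁ →
      ∀ (p u : ℕ) (v : ℤ × ℤ), s.toList[p]? = some (Lt.k v) → u < 2 * h - 2 →
        φ (p * (2 * h + 2) + u) = - φ (p * (2 * h + 2) + (2 * h - 2 + u % 2))

/-- **LA.** Uniformly bounded integral annihilators.  There are finitely many `Q`; for each `Q` the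
space of `ψ : Fin M → ℚ` with `∑ ψ q π q = 0` for all `π ∈ Q` has a finite basis; clear
denominators. -/
def LA_stmt : Prop :=
  ∀ M B : ℕ, ∃ H : ℕ, ∀ Q : Finset (ℕ → ℕ),
    (∀ π ∈ Q, (∀ q, π q ≤ B) ∧ ∀ q, M ≤ q → π q = 0) →
    ∃ Φ : Finset (ℕ → ℤ), (∀ φ ∈ Φ, ∀ q, |φ q| ≤ H) ∧
      (∀ φ ∈ Φ, ∀ π ∈ Q, ∑ q ∈ Finset.range M, φ q * (π q : ℤ) = 0) ∧
      ∀ ψ : ℕ → ℚ, Ann M (Q : Set (ℕ → ℕ)) ψ →
        ∃ c : (ℕ → ℤ) → ℚ, ∀ q, q < M → ψ q = ∑ φ ∈ Φ, c φ * (φ q : ℚ)

/-- **LB.** Double annihilator with uniform denominators.  Finitely many `Q` and `δ`; for each the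
hypothesis says that `δ` (restricted to `[0, M)`) is in the `ℚ`-span of `Q`; clear denominators and
take a common multiple `D` and the maximal coefficient `K`. -/
def LB_stmt : Prop :=
  ∀ (M B : ℕ) (Δ : Finset (ℕ → ℤ)), ∃ D K : ℕ, 1 ≤ D ∧ ∀ Q : Finset (ℕ → ℕ),
    (∀ π ∈ Q, (∀ q, π q ≤ B) ∧ ∀ q, M ≤ q → π q = 0) → ∀ δ ∈ Δ,
    (∀ ψ : ℕ → ℚ, Ann M (Q : Set (ℕ → ℕ)) ψ →
      ∑ q ∈ Finset.range M, ψ q * (δ q : ℚ) = 0) →
    ∃ c : (ℕ → ℕ) → ℤ, (∀ π, |c π| ≤ K) ∧
      ∀ q, q < M → (D : ℤ) * δ q = ∑ π ∈ Q, c π * (π q : ℤ)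

/-! ## Realisations -/

/-- **RE.** The value of the realisation.  The block of `κ_v` in position `p` has value
`zz (SR h R p 0, SR h R p 1) * zz (-(SR 0 - D v.1), -(SR 1 - D v.2)) = zz (D v)`, because
`R ≤ SR h R p j` and `D n < R` make the subtraction exact. -/
def RE_stmt : Prop :=
  ∀ (h R D n : ℕ) (s : W), 3 ≤ h → s.length ≤ n → Box n s → D * n < R →
    DZ.ev (real h R D n s) = val D s

/-- The change of the vector of run lengths when `κ_v` in position `p` is replaced by `κ_(v+d)`,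
divided by `D`. -/
def dl (h p : ℕ) (d : ℤ × ℤ) (q : ℕ) : ℤ :=
  if q = p * (2 * h + 2) + (2 * h - 2) then -d.1
  else if q = p * (2 * h + 2) + (2 * h - 1) then -d.2 else 0

/-- **MV.** The change of the vector of run lengths from the mode word to the kept word.  Look at
the block of `q`: positions `p ≠ q / (2h+2)` do not contribute to the sum. -/
def MV_stmt : Prop :=
  ∀ (h R D n : ℕ) (P : TW), 3 ≤ h → P.length ≤ n → Box n (mo P) → Box n (ke P) → D * n < R →
    ∀ (t : ℕ → ℤ) (d : ℕ → ℤ × ℤ),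
      (∀ p v v', P.toList[p]? = some (PL.m v v') → v' = v + t p • d p) →
      (∀ p, (∀ v v', P.toList[p]? ≠ some (PL.m v v')) → t p = 0) →
      ∀ q, (ex h R D (ke P) q : ℤ) =
        ex h R D (mo P) q + ∑ p ∈ Finset.range n, t p * (D * dl h p (d p) q)

/-- **PSI.** Scaling.  First part: the endomorphism `Monoid.Coprod.map` of `ℤ² * ℤ` which is
multiplication by `D` on `ℤ²` and the identity on `ℤ` sends `val 1 s` to `val D s`.  Second part:
in `Ĝ = Monoid.Coprod (Multiplicative (ℚ × ℚ)) (Multiplicative ℤ)` multiplication by `1/D` on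
`ℚ²` gives an endomorphism; the composition `G → G → Ĝ → Ĝ` (multiplication by `D`, inclusion,
multiplication by `1/D`) is the natural map `G → Ĝ`, and `DZ.rep` factors through the natural map
(the same formulas for rational vectors).  So `val D s = 1` implies `DZ.rep (val 1 s) = 1`. -/
def PSI_stmt : Prop :=
  (∀ (D : ℕ) (s : W), val 1 s = 1 → val D s = 1) ∧
    ∀ (D : ℕ) (s : W), 1 ≤ D → val D s = 1 → DZ.rep (val 1 s) = 1

/-- **A.** The result of part A (assembly by helper84 from all the statements above). -/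
def A_stmt : Prop :=
  ∀ (k : ℕ) (L : Fin k → Language (Fin 6)), (∀ i, (L i).IsContextFree) →
    (∀ w, DZ.ev w = 1 → ∀ i, w ∈ L i) →
    ∃ Λ : Finset (ℤ × ℤ), 0 ∉ Λ ∧ ∀ n : ℕ, ∃ D : ℕ, 1 ≤ D ∧ ∃ rl : W → List (Fin 6),
      (∀ s : W, s.length ≤ n → Box n s → DZ.ev (rl s) = val D s) ∧
      ∀ i, ∃ F : W → ℤ × ℤ → W → ℤ × ℤ, (∀ l v r, F l v r ∈ Λ) ∧
        ∀ P : TW, P.length ≤ n → Box n (mo P) → Box n (ke P) → val 1 (mo P) = 1 → Legal F P →
          rl (ke P) ∈ L i

end WZ
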