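import Pool.Agent.helper84.WZ.SpecA

/-!
# Project wz, parts B and C: ultrafilters on words, the group theorem, the end

Statements only.  Every statement has a proof sketch in its docstring.  Module `XX`: file
`Pool/Agent/<seat>/WZ/XX.lean`, `import Pool.Agent.helper84.WZ.SpecB`, `namespace WZ`,
`open Filter`, `theorem XX (h : YY_stmt) ... : XX_stmt`; any other statement may be a hypothesis.

Conventions: products of ultrafilters are `WZ.instSemigroupUltrafilter` (= `Ultrafilter.mul`):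
`∀ᶠ w in U * V, p w ↔ ∀ᶠ x in U, ∀ᶠ y in V, p (x * y)` is `Ultrafilter.eventually_mul` (`Iff.rfl`).
Right multiplications `(· * V)` are continuous (`Ultrafilter.continuous_mul_left`).
-/

set_option autoImplicit false

namespace WZ

open Filter

/-! ## Generalities -/

/-- **UM.** `Ultrafilter.map` of a homomorphism is a homomorphism; principal ultrafilters. -/
def UM_stmt : Prop :=
  (∀ (M N : Type) [Monoid M] [Monoid N] (f : M →* N) (p q : Ultrafilter M),
    (p * q).map f = p.map f * q.map f) ∧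
  (∀ (M : Type) [Monoid M] (a b : M) (p : Ultrafilter M),
    (pure a : Ultrafilter M) * pure b = pure (a * b) ∧ (pure 1 : Ultrafilter M) * p = p ∧
      p * (pure 1 : Ultrafilter M) = p) ∧
  (∀ (g h : DZ.G) (p q : Ultrafilter W), p ∈ UV g → q ∈ UV h → p * q ∈ UV (g * h)) ∧
  (∀ w : W, (pure w : Ultrafilter W) ∈ UV (val 1 w)) ∧
  (∀ g h : DZ.G, ∀ p : Ultrafilter W, p ∈ UV g → p ∈ UV h → g = h) ∧
  (∀ g : DZ.G, IsClosed (UV g)) ∧
  (∀ g : DZ.G, ∃ w : W, val 1 w = g)

/-- **EM.** Homomorphisms between words: `mo`, `ke` are left inverses of `emb`, and marks. -/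
def EM_stmt : Prop :=
  (∀ w : W, mo (emb w) = w) ∧ (∀ w : W, ke (emb w) = w) ∧
  (∀ (w : W) (l r : TW) (v v' : ℤ × ℤ), emb w ≠ l * FreeMonoid.of (PL.m v v') * r) ∧
  (∀ (P Q l r : TW) (v v' : ℤ × ℤ), P * Q = l * FreeMonoid.of (PL.m v v') * r →
    (∃ r', P = l * FreeMonoid.of (PL.m v v') * r' ∧ r = r' * Q) ∨
      ∃ l', Q = l' * FreeMonoid.of (PL.m v v') * r ∧ l = P * l') ∧
  (∀ (P : TW) (q : Filter W) (A : TW → ℤ × ℤ → ℤ × ℤ → TW → W → Prop),
    (∀ l v v' r, P = l * FreeMonoid.of (PL.m v v') * r → ∀ᶠ z in q, A l v v' r z) →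
      ∀ᶠ z in q, ∀ l v v' r, P = l * FreeMonoid.of (PL.m v v') * r → A l v v' r z) ∧
  (∀ (P : TW) (q : Filter TW) (A : TW → ℤ × ℤ → ℤ × ℤ → TW → TW → Prop),
    (∀ l v v' r, P = l * FreeMonoid.of (PL.m v v') * r → ∀ᶠ z in q, A l v v' r z) →
      ∀ᶠ z in q, ∀ l v v' r, P = l * FreeMonoid.of (PL.m v v') * r → A l v v' r z)

/-- **MI.** Minimal idempotents in a compact right topological semigroup: `C` a closed nonempty
subsemigroup, `ē ∈ C` idempotent.  Proof: `C * ē` is a closed left ideal of `C` (image of a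
compact set under a continuous map); by Zorn (`zorn_superset`, as in
`exists_idempotent_of_compact_t2_of_continuous_mul_left`) it contains a minimal closed nonempty
left ideal `L` of `C`; take an idempotent `ρ ∈ L` (`exists_idempotent_in_compact_subsemigroup`).
`ρ ∈ C ē` gives `ρ ē = ρ`.  For `p ∈ C` the set `C * (p * ρ)` is a closed left ideal contained in
`L`, hence equal to `L ∋ ρ`. -/
def MI_stmt : Prop :=
  ∀ (X : Type) [Semigroup X] [TopologicalSpace X] [CompactSpace X] [T2Space X],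
    (∀ r : X, Continuous (· * r)) → ∀ (C : Set X) (e : X), IsClosed C →
      (∀ p ∈ C, ∀ q ∈ C, p * q ∈ C) → e ∈ C → e * e = e →
      ∃ ρ ∈ C, ρ * ρ = ρ ∧ ρ * e = ρ ∧ ∀ p ∈ C, ∃ q ∈ C, q * (p * ρ) = ρ

/-- **ME.** Existence of a minimal idempotent (MI for `C = UV 1`, `ē = pure 1`). -/
def ME_stmt : Prop := ∃ e : Ultrafilter W, MinE e

/-- **GI.** The group with identity `e`.  (1) inverse: take a word `w` of value `g⁻¹`; `w * p` is in
`UV 1`, so `q' * (w * p * e) = e` for some `q' ∈ UV 1`; `q = e * q' * w * e` is a left inverse of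
`p`, and again `q` has a left inverse of the same kind, so `q` is a two-sided inverse.
(2) an idempotent `p = e p = p e` is `e`.  (3) products and the elements `e * pure w * e`. -/
def GI_stmt : Prop :=
  ∀ e : Ultrafilter W, MinE e →
    (∀ p g, InG e p → p ∈ UV g → ∃ q, InG e q ∧ q ∈ UV g⁻¹ ∧ q * p = e ∧ p * q = e) ∧
    (∀ p, InG e p → p * p = p → p = e) ∧
    (∀ p q, InG e p → InG e q → InG e (p * q)) ∧
    (∀ w : W, InG e (e * (pure w : Ultrafilter W) * e) ∧
      e * (pure w : Ultrafilter W) * e ∈ UV (val 1 w)) ∧ InG e e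

/-! ## Legal pair ultrafilters -/

/-- **RM.** Products (uses UM, EM).  If `p.map mo = e` and `q.map mo = e` then `Leg F e (p * q)`
follows from `Leg F e p` and `Leg F e q`: marks of `P * Q` are marks of `P` (right context
`r * mo Q * z`, and `e = q.map mo * e`) or marks of `Q` (left context `x * mo P * l`, and
`e = e * p.map mo`). -/
def RM_stmt : Prop :=
  ∀ (F : W → ℤ × ℤ → W → ℤ × ℤ) (e : Ultrafilter W), MinE e →
    (∀ p q : Ultrafilter TW, p.map mo = e → q.map mo = e → Leg F e p → Leg F e q →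
      Leg F e (p * q)) ∧
    (∀ p : Ultrafilter W, Leg F e (p.map emb)) ∧
    ∀ y y', Rl F e y → Rl F e y' → Rl F e (y * y')

/-- **QM.** `QQ e q u d` is a closed subsemigroup containing `e.map emb` (uses UM, EM), if
`q * e = q`.  Products: marks in the second factor: `e = e * e` and `p.map mo = e`; marks in the
first factor: `q = q * e`, there are only finitely many marks.  Closed: intersection of the closed
sets `{p | p.map mo = e}` and `{p | S_A ∈ p}`.  Marks do not occur in `emb w`. -/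
def QM_stmt : Prop :=
  ∀ (e q : Ultrafilter W) (u d : ℤ × ℤ), MinE e → q * e = q →
    IsClosed (QQ e q u d) ∧ e.map emb ∈ QQ e q u d ∧
      ∀ p ∈ QQ e q u d, ∀ p' ∈ QQ e q u d, p * p' ∈ QQ e q u d

/-- **QG.** The generator (uses UM, EM): `q` the inverse of `PP e u`, for every integer `t` the
ultrafilter `e * [u, u + t d] * e * q` (images under `emb`, `pure` of the marked letter) is in
`QQ e q u d`, with kept value `PP e (u + t d) * q`. -/
def QG_stmt : Prop :=
  ∀ (e q : Ultrafilter W) (u d : ℤ × ℤ), MinE e → InG e q → q * PP e u = e → PP e u * q = e →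
    ∀ t : ℤ, ∃ p ∈ QQ e q u d, p.map ke = PP e (u + t • d) * q

/-- **QI.** The inverse of the generator (uses UM, EM, MI, GI, QM, QG).  `V = PP e (u + t d) * q`,
`V'` its inverse.  `C = {p ∈ QQ e q u d | p.map ke ∈ UV 1}` is a closed subsemigroup containing
`ē = e.map emb`.  MI gives `ρ ∈ C` with `ρ ρ = ρ`, `ρ ē = ρ`.  Let `g, g'` be the elements of QG for
`t`, `-t`; the values of their kept parts are `t d`, `-t d`, so `g' g ∈ C` and there is `x ∈ C` with
`x * (g' * g * ρ) = ρ`.  Let `ε = e * ρ.map ke`; it is idempotent and in the group (`ρ ē = ρ`), so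
`ε = e`.  Hence `e * x.map ke * V'' * V = e` where `V'' = g'.map ke = PP e (u - t d) * q`
(multiply `x g' g ρ = ρ` by `ē` on the left and use `V * ρ.map ke = V * e * ρ.map ke = V`).  So
`ē * x * g'` is in `QQ e q u d` and has the kept value `V⁻¹`. -/
def QI_stmt : Prop :=
  ∀ (e q : Ultrafilter W) (u d : ℤ × ℤ), MinE e → InG e q → q * PP e u = e → PP e u * q = e →
    ∀ (t : ℤ) (V' : Ultrafilter W), InG e V' → V' * (PP e (u + t • d) * q) = e →
      ∃ p ∈ QQ e q u d, p.map ke = V'

/-- **LG.** Conjugation by a group element with the right label (uses UM, EM).  `p ∈ QQ e q u d`,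
`g, g'` inverse to each other, the label of the view `(g, q * g')` is `d`.  Then
`g.map emb * p * g'.map emb` has mode value `e` and is legal: `g = e * g * e`,
`q * g' = q * g' * e`, so `∀ᶠ x in e, ∀ᶠ y in g, ∀ᶠ l in e, ∀ᶠ r in q, ∀ᶠ y' in g', ∀ᶠ z in e,
F (x * y * l) u (r * y' * z) = d`; apply the definition of `QQ` to the set `A` of the `(l, r)` with
`∀ᶠ y' in g', ∀ᶠ z in e, F (x * y * l) u (r * y' * z) = d`, then use finiteness of the marks. -/
def LG_stmt : Prop :=
  ∀ (F : W → ℤ × ℤ → W → ℤ × ℤ) (e q : Ultrafilter W) (u d : ℤ × ℤ), MinE e → q * e = q →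
    ∀ g g' : Ultrafilter W, InG e g → InG e g' → g * g' = e →
      (∀ᶠ x in (g : Filter W), ∀ᶠ r in (q * g' : Ultrafilter W).toFilter, F x u r = d) →
      ∀ p ∈ QQ e q u d, Rl F e (g * p.map ke * g')

/-- **CA.** Concatenation (uses UM, EM, RM).  `y` in the group with inverse `y'`, and `y` is
reachable for all labellings, by `p_i`.  Work in the monoid `N = W × (Fin k → TW)`; by induction on
a finite set `J` of indices there is an ultrafilter `Θ` on `N` such that: its first component is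
`y`, almost all `(w, P)` satisfy `ke (P i) = w` for all `i`; for `i ∈ J` the component `i` has mode
value `e` and is legal; for `i ∉ J` it is `y.map emb`.  Start: image of `y` under
`w ↦ (w, fun _ => emb w)`.  Step: `Θ * D(y') * Θ_j` with `D` the image under the same map and
`Θ_j` the image of `p_j` under `P ↦ (ke P, fun i => if i = j then P else emb (ke P))`; components
`i ∈ J`: `Θ_i * (y' y).map emb`; `i = j`: `(y y').map emb * p_j`; others: `(y y' y).map emb`.
Finally for almost all `x` in `e`, `(w, P)` in `Θ`, `z` in `e` the words `emb x * P i * emb z` are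
legal, of trivial mode value, and `x * w * z` has value `g`. -/
def CA_stmt : Prop :=
  ∀ (k : ℕ) (F : Fin k → W → ℤ × ℤ → W → ℤ × ℤ) (e y y' : Ultrafilter W) (g : DZ.G), MinE e →
    InG e y → InG e y' → y * y' = e → y' * y = e → y ∈ UV g → (∀ i, Rl (F i) e y) →
    ∃ w : W, val 1 w = g ∧ ∀ i, ∃ P : TW, ke P = w ∧ val 1 (mo P) = 1 ∧ Legal (F i) P

/-! ## The group theorem -/

/-- **GC.** The group theorem of helper9 (`Pool/Agent/helper9/DZ/Confined.lean`), in a group `Γ`
over `ℤ² * ℤ`.  Copy that file: replace `zz u` by `P u`, `zz (n v)` by `P (u + n v) * (P u)⁻¹` (same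
`u` as in `k = P u * (x f x⁻¹) * (P u)⁻¹`), `x = C N`.  Induction step: `E` a finite subset of `Γ`
with `DZ.hyp (v f)` for `f ∈ E` and `∀ γ, ∃ f ∈ E, γ f γ⁻¹ ∈ K`.  `DZ.gallai_fin (insert 0 Λ) E` for
the colouring `u ↦ f` with `(γ P u x) f (γ P u x)⁻¹ ∈ K` gives `u, n, f` with
`γ k γ⁻¹ ∈ K` and `γ V k V⁻¹ γ⁻¹ ∈ K` for `V = P (u + n d) (P u)⁻¹`, all `d ∈ Λ`.
Pigeonhole on the labels `d` of `γ k^j`, `j ≤ Λ.card`: `i < j` with the same `d`; the element
`k^i V k^(-i) k^j V⁻¹ k^(-j)` conjugated by `γ` is in `H` and in `K`.  Its image in `ℤ² * ℤ` is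
`DZ.YY`, hyperbolic by `DZ.hyp_YY`. -/
def GC_stmt : Prop :=
  ∀ (Γ : Type) [Group Γ] (v : Γ →* DZ.G) (P : ℤ × ℤ → Γ) (C : ℤ → Γ),
    (∀ u, v (P u) = DZ.zz u) → (∀ N, v (C N) = Monoid.Coprod.inr (Multiplicative.ofAdd N)) →
    ∀ (Λ : Finset (ℤ × ℤ)), 0 ∉ Λ → ∀ (k : ℕ) (H : Fin k → Subgroup Γ),
      (∀ i γ u, ∃ d ∈ Λ, ∀ n : ℕ, γ * (P (u + n • d) * (P u)⁻¹) * γ⁻¹ ∈ H i) →
      ∃ y, DZ.hyp (v y) ∧ ∀ i, y ∈ H i

/-- **R.** The result of parts B and C (assembly by helper84). -/
def R_stmt : Prop :=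
  ∀ (Λ : Finset (ℤ × ℤ)), 0 ∉ Λ → ∀ (k : ℕ) (F : Fin k → W → ℤ × ℤ → W → ℤ × ℤ),
    (∀ i l v r, F i l v r ∈ Λ) →
    ∃ y : W, DZ.rep (val 1 y) ≠ 1 ∧
      ∀ i, ∃ P : TW, ke P = y ∧ val 1 (mo P) = 1 ∧ Legal (F i) P

/-- **FIN.** The end (uses A, R, PSI).  Given `n` languages: A gives `Λ` and for every `m : ℕ` the
data `D_m`, `rl_m`, `F_m i`.  Let `F i l v r` be the limit of `F_m i l v r` along an ultrafilter on
`ℕ` finer than `atTop` (values in the finite set `Λ`).  R gives `y` and the pair words `P_i`.  For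
large `m` in the ultrafilter all the (finitely many) labels of the marks of the `P_i` agree and
`m` is larger than all lengths and vectors, so `P_i` is legal for `F_m i`, `rl_m (ke P_i) = rl_m y`
is in `L i` for all `i`, hence `1 = ev (rl_m y) = val D_m y`, and PSI contradicts
`DZ.rep (val 1 y) ≠ 1`. -/
def FIN_stmt : Prop :=
  ∀ (n : ℕ) (L : Fin n → Language (Fin 6)), (∀ i, (L i).IsContextFree) →
    (∀ w, DZ.ev w = 1 ↔ ∀ i, w ∈ L i) → False

end WZ
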